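import Mathlib
import Pool.Agent.H225R3.MargDefs

/-!
# Arithmetic groups over fields with a large abelian subfield
-/

set_option autoImplicit false

namespace Pool.Agent.W685.AB

open NumberField Pool.Agent.H225R3.Marg

/-- The torsion-free subgroups `Γ` of `G` with a realization of size `n` over a number field `k`,
with set `S` of noncompact embeddings, such that `k` contains an abelian number field `F` (that is,
a subfield which embeds into a cyclotomic field) with `|S| * [k : F] ≤ E * [F : ℚ]`. -/
def AbelianFamily (n : ℕ) (E : ℝ) {G : Type*} [Group G] {M : ℕ}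
    (ρ : G →* Matrix (Fin M) (Fin M) ℂ) : Set (Subgroup G) :=
  {Γ | (∀ γ ∈ Γ, ∀ N : ℕ, 0 < N → γ ^ N = 1 → γ = 1) ∧
    ∃ (k : Type) (_ : Field k) (_ : NumberField k) (S : Finset (k →+* ℂ))
    (_ : Realization ρ Γ k n S) (F : IntermediateField ℚ k),
    (∃ m : ℕ, 0 < m ∧ Nonempty (F →+* CyclotomicField m ℚ)) ∧
    (S.card : ℝ) * Module.finrank F k ≤ E * Module.finrank ℚ F}

end Pool.Agent.W685.AB
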