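import Pool.Agent.W685.AB.G3

set_option autoImplicit false
set_option linter.unusedSectionVars false

namespace Pool.Agent.W685.AB

open Polynomial

variable {E : Type} [Field E] [NumberField E] [IsGalois ℚ E]

/-- **The relative height bound over cyclotomic fields.** -/
theorem house2 (ι : E →+* ℂ) {D p : ℕ} (hp : p.Prime) (hp3 : 3 ≤ p) (hpD : 3 * D < p) :
    ∀ m : ℕ, 0 < m → (∃ z : E, IsPrimitiveRoot z m) → ∀ a : O E, (T m a).ncard ≤ D →
    Hp ι (a : E) ^ (4 * p * D) ≤ (3 / 2) ^ (Fintype.card (E ≃ₐ[ℚ] E)) →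
    a = 0 ∨ ∃ n > 0, a ^ n = 1 := by
  intro m
  induction m using Nat.strong_induction_on with
  | _ m ih =>
  intro hm hprim a hTD hac
  obtain ⟨r, hr⟩ : ∃ r, (T m a).ncard = r := ⟨_, rfl⟩
  induction r using Nat.strong_induction_on generalizing a with
  | _ r ihr =>
  by_cases ha0 : a = 0
  · exact Or.inl ha0
  have ha0' : (a : E) ≠ 0 := fun h => ha0 (Subtype.ext h)
  by_cases hinj : Set.InjOn (fun t : O E => t ^ p) (T m a)
  swap
  · obtain ⟨y, hyp, b, hb, hlt⟩ := shrink hp ha0 (by omega) hinj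
    have hHb : Hp ι (b : E) = Hp ι (a : E) := by rw [hb]; exact Hp_root ι hp.pos hyp _
    rcases ihr _ (hr ▸ hlt) b (hlt.le.trans hTD) (by rw [hHb]; exact hac) rfl with h | ⟨n, hn, h⟩
    · exfalso
      have h1 : (b : E) = 0 := congrArg Subtype.val h
      rw [hb] at h1
      rcases mul_eq_zero.mp h1 with h2 | h2
      · rw [h2, zero_pow hp.ne_zero] at hyp
        exact zero_ne_one hyp
      · exact ha0' h2
    · refine Or.inr ⟨p * n, Nat.mul_pos hp.pos hn, ?_⟩
      have h1 : (b : E) ^ n = 1 := by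
        have := congrArg Subtype.val h
        simpa using this
      apply Subtype.ext
      have h2 : (b : E) ^ (p * n) = 1 := by rw [mul_comm, pow_mul, h1, one_pow]
      rw [hb, mul_pow, pow_mul y, hyp, one_pow, one_mul] at h2
      simpa using h2
  have : NeZero m := ⟨hm.ne'⟩
  obtain ⟨z₀, hz₀⟩ := hprim
  have hzint : IsIntegral ℤ z₀ := IsIntegral.of_pow hm (by rw [hz₀.pow_eq_one]; exact isIntegral_one)
  set z : O E := ⟨z₀, hzint⟩ with hzdef
  have hz : IsPrimitiveRoot (z : E) m := hz₀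
  have hfin := finite_T m a
  -- the finite set of `H m`-conjugates
  set S : Finset (O E) := hfin.toFinset with hS
  have hSstab : ∀ g ∈ H E m, ∀ t ∈ S, actO g t ∈ S := by
    intro g hg t ht
    rw [hS, Set.Finite.mem_toFinset] at ht ⊢
    obtain ⟨h, hh, rfl⟩ := ht
    exact ⟨g * h, mul_mem hg hh, rfl⟩
  have hScard : S.card ≤ D := by
    rw [hS, ← Set.ncard_eq_toFinset_card _ hfin]; exact hTD
  have hSc : ∀ t ∈ S, Hp ι (t : E) ≤ Hp ι (a : E) := by
    intro t ht
    rw [hS, Set.Finite.mem_toFinset] at ht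
    obtain ⟨h, hh, rfl⟩ := ht
    rw [coe_actO, Hp_gal]
  have hinjS : Set.InjOn (fun t : O E => t ^ p) S := by
    rw [hS, Set.Finite.coe_toFinset]; exact hinj
  have haS : a ∈ S := by
    rw [hS, Set.Finite.mem_toFinset]
    exact ⟨1, one_mem _, rfl⟩
  by_cases hpm : p ∣ m
  · -- `p ∣ m`
    obtain ⟨m', rfl⟩ := hpm
    have hm' : 0 < m' := by
      rcases Nat.eq_zero_or_pos m' with h0 | h0
      · rw [h0] at hm; simp at hm
      · exact h0
    obtain ⟨g, hg1, hg2, hg3⟩ := exists_g hp hp3 hm' hz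
    obtain ⟨a', ha', t, ht, hgt⟩ := exists_eq_pow2 ι hp hpD (one_le_Hp ι _) hac hm hz S ⟨a, haS⟩
      hSstab hScard hSc hinjS g p (Or.inr rfl) hg1
    rw [hS, Set.Finite.mem_toFinset] at ht ha'
    obtain ⟨k, hk, rfl⟩ := ht
    obtain ⟨h₀, hh₀, rfl⟩ := ha'
    rw [coe_actO, coe_actO] at hgt
    have hka : k (a : E) ≠ 0 := by
      rw [Ne, map_eq_zero]; exact ha0'
    set w : E := g (h₀ (a : E)) / k (a : E) with hw
    have hwp : w ^ p = 1 := by
      rw [hw, div_pow, hgt, div_self (pow_ne_zero _ hka)]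
    have hga : g (h₀ (a : E)) = w * k (a : E) := by rw [hw, div_mul_cancel₀ _ hka]
    set u : E ≃ₐ[ℚ] E := k⁻¹ * (g * h₀) with hu
    have hkinv : k⁻¹ ∈ H E (p * m') := inv_mem hk
    have hroot : ∀ x : E, x ^ (p * m') = 1 → u x = g x := by
      intro x hx
      rw [hu, AlgEquiv.mul_apply, AlgEquiv.mul_apply, hh₀ x hx]
      exact hkinv _ (gal_pow_root g hx)
    have hua : u (a : E) = w * a := by
      rw [hu, AlgEquiv.mul_apply, AlgEquiv.mul_apply, hga, map_mul,
        hkinv w (by rw [pow_mul, hwp, one_pow])]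
      congr 1
      exact AlgEquiv.symm_apply_apply k (a : E)
    obtain ⟨y, hy1, hy2⟩ := hg3 w hwp
    have hy0 : y ≠ 0 := by
      rintro rfl
      rw [zero_pow hm.ne'] at hy1
      exact zero_ne_one hy1
    have hyint : IsIntegral ℤ y := IsIntegral.of_pow hm (by rw [hy1]; exact isIntegral_one)
    have huya : u (y * a) = y * a := by
      rw [map_mul, hroot y hy1, hua, ← mul_assoc, hy2]
    set y' : O E := ⟨y, hyint⟩ with hy'
    have hfixpow : ∀ i : ℕ, (u ^ i) (y * a) = y * a := by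
      intro i
      induction i with
      | zero => simp
      | succ i ih => rw [pow_succ', AlgEquiv.mul_apply, ih, huya]
    have hupow : ∀ i : ℕ, ∀ x : E, x ^ (p * m') = 1 → (u ^ i) x = (g ^ i) x := by
      intro i
      induction i with
      | zero => intro x _; simp
      | succ i ih =>
        intro x hx
        rw [pow_succ', AlgEquiv.mul_apply, ih x hx, pow_succ', AlgEquiv.mul_apply]
        exact hroot _ (gal_pow_root _ hx)
    -- the `H m'`-orbit of `y a`
    have hsub : T m' (y' * a) ⊆ (fun x => y' * x) '' T (p * m') a := by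
      rintro _ ⟨h, hh, rfl⟩
      obtain ⟨i, hi⟩ := hg2 h hh
      rw [← hupow i _ hz.pow_eq_one] at hi
      set k' : E ≃ₐ[ℚ] E := h * (u ^ i)⁻¹ with hk'
      have hk'z : k' z = z := by
        have hx1 : ((u ^ i)⁻¹ (z : E)) ^ (p * m') = 1 := gal_pow_root _ hz.pow_eq_one
        obtain ⟨s, _, hs⟩ := hz.eq_pow_of_pow_eq_one hx1
        have h1 : (u ^ i) ((u ^ i)⁻¹ (z : E)) = z := AlgEquiv.apply_symm_apply (u ^ i) (z : E)
        rw [hk', AlgEquiv.mul_apply, ← hs, map_pow, hi, ← map_pow, hs, h1]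
      have hk'H : k' ∈ H E (p * m') := by
        intro x hx
        obtain ⟨s, _, hs⟩ := hz.eq_pow_of_pow_eq_one hx
        rw [← hs, map_pow, hk'z]
      refine ⟨actO k' a, ⟨k', hk'H, rfl⟩, ?_⟩
      apply Subtype.ext
      have h2 : h (y * a) = k' (y * a) := by
        rw [hk', AlgEquiv.mul_apply]
        have h3 : (u ^ i)⁻¹ (y * (a : E)) = y * a := by
          conv_lhs => rw [← hfixpow i]
          exact AlgEquiv.symm_apply_apply (u ^ i) (y * (a : E))
        rw [h3]
      simp only [MulMemClass.coe_mul, coe_actO]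
      have h4 : ((y' : O E) : E) = y := rfl
      rw [h4, h2, map_mul, hk'H y hy1]
    have hcard : (T m' (y' * a)).ncard ≤ D :=
      calc _ ≤ ((fun x => y' * x) '' T (p * m') a).ncard :=
            Set.ncard_le_ncard hsub (hfin.image _)
        _ ≤ (T (p * m') a).ncard := Set.ncard_image_le hfin
        _ ≤ D := hTD
    have hlt : m' < p * m' := by nlinarith
    have hnorm : Hp ι ((y' * a : O E) : E) ^ (4 * p * D) ≤
        (3 / 2) ^ (Fintype.card (E ≃ₐ[ℚ] E)) := by
      have h1 : ((y' * a : O E) : E) = y * a := rfl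
      rw [h1, Hp_root ι hm hy1]
      exact hac
    rcases ih m' hlt hm' ⟨_, hz.pow hm rfl⟩ (y' * a) hcard hnorm with h | ⟨n, hn, h⟩
    · have h1 : y * (a : E) = 0 := congrArg Subtype.val h
      exact absurd h1 (mul_ne_zero hy0 ha0')
    · refine Or.inr ⟨p * m' * n, Nat.mul_pos hm hn, ?_⟩
      have h1 : (y * (a : E)) ^ n = 1 := by
        have := congrArg Subtype.val h
        simpa using this
      apply Subtype.ext
      have h2 : (y * (a : E)) ^ (p * m' * n) = 1 := by
        rw [mul_comm (p * m') n, pow_mul, h1, one_pow]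
      rw [mul_pow, pow_mul, hy1, one_pow, one_mul] at h2
      simpa using h2
  · -- `p ∤ m`
    have hcop : p.Coprime m := hp.coprime_iff_not_dvd.mpr hpm
    obtain ⟨g, hg⟩ := exists_gal hm hz hcop
    obtain ⟨a', ha', t, ht, hgt⟩ := exists_eq_pow2 ι hp hpD (one_le_Hp ι _) hac hm hz S ⟨a, haS⟩
      hSstab hScard hSc hinjS g 1 (Or.inl rfl) (by rw [pow_one, hg])
    rw [hS, Set.Finite.mem_toFinset] at ht ha'
    obtain ⟨k, hk, rfl⟩ := ht
    obtain ⟨h₀, hh₀, rfl⟩ := ha'
    rw [coe_actO, coe_actO, pow_one, ← map_pow] at hgt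
    refine torsion_of_frob hp.one_lt (u := k⁻¹ * (g * h₀)) ?_
    rw [AlgEquiv.mul_apply, AlgEquiv.mul_apply, hgt]
    exact AlgEquiv.symm_apply_apply k _

end Pool.Agent.W685.AB
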