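import Pool.Agent.W685.AB.D5
import Pool.Agent.W685.AB.G4
import Pool.Agent.H225R3.Marg8

set_option autoImplicit false
set_option linter.unusedSectionVars false

namespace Pool.Agent.W685.AB

open Polynomial NumberField Pool.Agent.H225R3.Marg
open scoped Classical

variable {k : Type} [Field k] [NumberField k]

theorem rO_inj {K : Type} [Field K] (j : k →+* K) : Function.Injective (rO j) :=
  j.injective.comp RingOfIntegers.coe_injective

theorem int_root (σ : k →+* ℂ) (P : (𝓞 k)[X]) (hP : P.Monic) {l : ℂ}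
    (hl : (P.map (rO σ)).IsRoot l) : IsIntegral ℤ l := by
  let _ : Algebra (𝓞 k) ℂ := (rO σ).toAlgebra
  have h1 : IsIntegral (𝓞 k) l := ⟨P, hP, by rw [IsRoot, eval_map] at hl; exact hl⟩
  have : IsScalarTower ℤ (𝓞 k) ℂ := IsScalarTower.of_algebraMap_eq' (RingHom.ext_int _ _)
  exact isIntegral_trans (R := ℤ) (A := 𝓞 k) l h1

/-- a Galois number field in which everything takes place -/
theorem exists_field (σ : k →+* ℂ) (m : ℕ) (hm : 0 < m) (l : ℂ) (hl : IsIntegral ℤ l) :
    ∃ (E : Type) (_ : Field E) (_ : NumberField E) (_ : IsGalois ℚ E) (ι : E →+* ℂ)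
      (j : k →+* E) (z a : E), ι.comp j = σ ∧ IsPrimitiveRoot z m ∧ ι a = l := by
  have hζ := Complex.isPrimitiveRoot_exp m hm.ne'
  set b := Module.finBasis ℚ k with hb
  set s : Finset ℂ := {l, Complex.exp (2 * Real.pi * Complex.I / m)} ∪
    (Finset.univ.image fun i => σ (b i)) with hs
  have hint : ∀ a ∈ s, IsIntegral ℚ a := by
    intro a ha
    rw [hs, Finset.mem_union, Finset.mem_insert, Finset.mem_singleton, Finset.mem_image] at ha
    rcases ha with (rfl | rfl) | ⟨i, _, rfl⟩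
    · exact hl.tower_top
    · refine IsIntegral.of_pow hm ?_
      rw [hζ.pow_eq_one]; exact isIntegral_one
    · exact (Algebra.IsIntegral.isIntegral (R := ℚ) (b i)).map σ.toRatAlgHom
  obtain ⟨E, _, _, _, ι, hι⟩ := exists_galois s hint
  have hmem : ∀ x : k, σ x ∈ ι.fieldRange := by
    intro x
    rw [← b.sum_repr x, map_sum]
    refine sum_mem fun i _ => ?_
    rw [Algebra.smul_def, map_mul]
    refine mul_mem ?_ ?_
    · have : σ (algebraMap ℚ k (b.repr x i)) = ((b.repr x i : ℚ) : ℂ) := by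
        rw [eq_ratCast, map_ratCast]
      rw [this]
      exact ⟨((b.repr x i : ℚ) : E), map_ratCast ι _⟩
    · obtain ⟨y, hy⟩ := hι (σ (b i)) (by
        rw [hs, Finset.mem_union, Finset.mem_image]
        exact Or.inr ⟨i, Finset.mem_univ _, rfl⟩)
      exact ⟨y, hy⟩
  let e := ι.rangeRestrictFieldEquiv
  let j : k →+* E := (e.symm : ι.fieldRange →+* E).comp (σ.codRestrict ι.fieldRange hmem)
  have hj : ι.comp j = σ := by
    ext x
    have h1 := e.apply_symm_apply (σ.codRestrict ι.fieldRange hmem x)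
    exact congrArg Subtype.val h1
  obtain ⟨z, hz⟩ := hι (Complex.exp (2 * Real.pi * Complex.I / m)) (by rw [hs]; simp)
  obtain ⟨a, ha⟩ := hι l (by rw [hs]; simp)
  refine ⟨E, inferInstance, inferInstance, inferInstance, ι, j, z, a, hj, ?_, ha⟩
  rw [← hz] at hζ
  exact IsPrimitiveRoot.of_map_of_injective hζ ι.injective

/-- the roots of the polynomial are roots of unity -/
theorem roots_torsion {n : ℕ} (hn : 0 < n) {E0 : ℝ} (hE0 : 0 < E0)
    (S : Finset (k →+* ℂ)) (F : IntermediateField ℚ k) (m : ℕ)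
    (e : F →+* CyclotomicField m ℚ) (P : (𝓞 k)[X]) (hP : P.Monic) (hPn : P.natDegree = n)
    (hP0 : P.coeff 0 ≠ 0) (hm : 0 < m)
    (hS : (S.card : ℝ) * Module.finrank F k ≤ E0 * Module.finrank ℚ F)
    (hout : ∀ σ : k →+* ℂ, σ ∉ S → ∀ l : ℂ, (P.map (rO σ)).IsRoot l → ‖l‖ ≤ 1)
    (hin : ∀ σ ∈ S, ∀ l : ℂ, (P.map (rO σ)).IsRoot l →
      ‖l‖ ≤ Real.exp (Real.log (3 / 2) / (24 * n ^ 2 * E0)))
    (σ : k →+* ℂ) (l : ℂ) (hl : (P.map (rO σ)).IsRoot l) : ∃ N : ℕ, 0 < N ∧ l ^ N = 1 := by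
  have hlog : 0 < Real.log (3 / 2) := Real.log_pos (by norm_num)
  set κ : ℝ := Real.log (3 / 2) / (24 * n ^ 2 * E0) with hκ
  have hn' : (0 : ℝ) < n := by exact_mod_cast hn
  have hκ0 : 0 < κ := by positivity
  set D : ℕ := n * Module.finrank F k with hD
  have hDpos : 0 < D := Nat.mul_pos hn Module.finrank_pos
  obtain ⟨p, hp, hpgt, hple⟩ := Nat.exists_prime_lt_and_le_two_mul (3 * D) (by omega)
  have hp3 : 3 ≤ p := by omega
  obtain ⟨E, _, _, _, ι, j, z, a, hj, hz, ha⟩ := exists_field σ m hm l (int_root σ P hP hl)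
  have haint : IsIntegral ℤ a := by
    have h1 := int_root σ P hP hl
    rw [← ha] at h1
    exact (isIntegral_algHom_iff ι.toIntAlgHom ι.injective).mp h1
  have haroot : (P.map (rO j)).IsRoot a := by
    have h1 : rO σ = ι.comp (rO j) := by rw [← hj]; rfl
    rw [h1, ← ha, ← Polynomial.map_map, IsRoot, eval_map, eval₂_at_apply] at hl
    exact (map_eq_zero ι).mp hl
  have hcard : (T m (⟨a, haint⟩ : O E)).ncard ≤ D := by
    have := orbit_card hm hz ι F e j P hP ⟨a, haint⟩ haroot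
    rwa [hPn] at this
  set N : ℕ := Fintype.card (E ≃ₐ[ℚ] E) with hN
  set M : ℕ := (Finset.univ.filter fun g : E ≃ₐ[ℚ] E =>
      ι.comp ((g : E →+* E).comp j) ∈ S).card with hM
  have hHp : Hp ι a ≤ (Real.exp κ) ^ M :=
    Hp_le ι j S P (Real.one_le_exp hκ0.le) hout hin haroot
  have hMN := S_card ι j S
  rw [← hM, ← hN] at hMN
  have hd : (0 : ℝ) < Module.finrank ℚ F := by
    exact_mod_cast (Module.finrank_pos (R := ℚ) (M := F))
  have hd' : (0 : ℝ) < Module.finrank F k := by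
    exact_mod_cast (Module.finrank_pos (R := F) (M := k))
  have hM3 : (M : ℝ) * (Module.finrank F k) ^ 2 ≤ E0 * N := by
    have h0 : Module.finrank ℚ k = Module.finrank ℚ F * Module.finrank F k :=
      (Module.finrank_mul_finrank ℚ F k).symm
    rw [h0] at hMN
    have h1 : (M : ℝ) * (Module.finrank ℚ F * Module.finrank F k) ≤ S.card * N := by
      exact_mod_cast hMN
    have h2 : (M : ℝ) * (Module.finrank F k) ^ 2 * Module.finrank ℚ F ≤
        E0 * N * Module.finrank ℚ F := by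
      calc (M : ℝ) * (Module.finrank F k) ^ 2 * Module.finrank ℚ F
          = (M : ℝ) * (Module.finrank ℚ F * Module.finrank F k) * Module.finrank F k := by ring
        _ ≤ S.card * N * Module.finrank F k := mul_le_mul_of_nonneg_right h1 hd'.le
        _ = S.card * Module.finrank F k * N := by ring
        _ ≤ E0 * Module.finrank ℚ F * N := mul_le_mul_of_nonneg_right hS (by positivity)
        _ = _ := by ring
    exact le_of_mul_le_mul_right h2 hd
  have hfin : Hp ι a ^ (4 * p * D) ≤ (3 / 2) ^ N := by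
    calc Hp ι a ^ (4 * p * D) ≤ ((Real.exp κ) ^ M) ^ (4 * p * D) :=
          pow_le_pow_left₀ (zero_le_one.trans (one_le_Hp ι a)) hHp _
      _ = Real.exp (κ * (M * (4 * p * D))) := by
          rw [← pow_mul, ← Real.exp_nat_mul]
          congr 1
          push_cast
          ring
      _ ≤ Real.exp (N * Real.log (3 / 2)) := by
          rw [Real.exp_le_exp]
          have h1 : (p : ℝ) ≤ 2 * (3 * D) := by exact_mod_cast hple
          have hDr : (D : ℝ) = n * Module.finrank F k := by rw [hD]; push_cast; ring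
          have h2 : (M : ℝ) * (4 * p * D) ≤ 24 * n ^ 2 * (E0 * N) := by
            calc (M : ℝ) * (4 * p * D) ≤ M * (4 * (2 * (3 * D)) * D) := by gcongr
              _ = 24 * n ^ 2 * (M * (Module.finrank F k) ^ 2) := by rw [hDr]; ring
              _ ≤ _ := mul_le_mul_of_nonneg_left hM3 (by positivity)
          calc κ * (M * (4 * p * D)) ≤ κ * (24 * n ^ 2 * (E0 * N)) :=
                mul_le_mul_of_nonneg_left h2 hκ0.le
            _ = N * Real.log (3 / 2) := by rw [hκ]; field_simp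
      _ = (3 / 2) ^ N := by
          rw [Real.exp_nat_mul, Real.exp_log (by norm_num)]
  rcases house2 ι hp hp3 hpgt m hm ⟨z, hz⟩ ⟨a, haint⟩ hcard hfin with h | ⟨r, hr, h⟩
  · exfalso
    have h1 : a = 0 := congrArg Subtype.val h
    rw [h1, IsRoot, ← coeff_zero_eq_eval_zero, coeff_map] at haroot
    exact hP0 ((map_eq_zero_iff _ (rO_inj j)).mp haroot)
  · refine ⟨r, hr, ?_⟩
    have h1 : a ^ r = 1 := by
      have := congrArg Subtype.val h
      simpa using this
    rw [← ha, ← map_pow, h1, map_one]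

theorem gapAb (n : ℕ) (E0 : ℝ) (hE0 : 0 < E0) : ∃ ε : ℝ, 0 < ε ∧
    ∀ (k : Type) [Field k] [NumberField k] (S : Finset (k →+* ℂ)) (F : IntermediateField ℚ k)
      (m : ℕ) (_ : F →+* CyclotomicField m ℚ) (A : Matrix (Fin n) (Fin n) (𝓞 k)), 0 < m →
      (S.card : ℝ) * Module.finrank F k ≤ E0 * Module.finrank ℚ F → IsUnit A →
      (∀ σ : k →+* ℂ, σ ∉ S → ∀ l : ℂ, ((emb σ).mapMatrix A).charpoly.IsRoot l → ‖l‖ ≤ 1) →
      (∀ N : ℕ, 0 < N → ¬ IsNilpotent (A ^ N - 1)) →
      ∃ σ ∈ S, ∃ l : ℂ, ((emb σ).mapMatrix A).charpoly.IsRoot l ∧ ε ≤ ‖l - 1‖ := by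
  have hlog : 0 < Real.log (3 / 2) := Real.log_pos (by norm_num)
  rcases Nat.eq_zero_or_pos n with hn | hn
  · subst hn
    refine ⟨1, one_pos, ?_⟩
    intro k _ _ S F m e A hm hS hA hout hnil
    exact absurd ⟨1, Subsingleton.elim _ _⟩ (hnil 1 one_pos)
  have hn' : (0 : ℝ) < n := by exact_mod_cast hn
  set κ : ℝ := Real.log (3 / 2) / (24 * n ^ 2 * E0) with hκ
  have hκ0 : 0 < κ := by positivity
  have hc : 1 < Real.exp κ := Real.one_lt_exp_iff.mpr hκ0
  refine ⟨Real.exp κ - 1, by linarith, ?_⟩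
  intro k _ _ S F m e A hm hS hA hout hnil
  by_contra hcon
  push Not at hcon
  have hchar : ∀ σ : k →+* ℂ, ((emb σ).mapMatrix A).charpoly = A.charpoly.map (rO σ) := by
    intro σ
    exact Matrix.charpoly_map A (emb σ)
  have hdet : A.charpoly.coeff 0 ≠ 0 := by
    intro h0
    have h1 := Matrix.det_eq_sign_charpoly_coeff A
    rw [h0, mul_zero] at h1
    have h2 := (Matrix.isUnit_iff_isUnit_det A).mp hA
    rw [h1] at h2
    exact not_isUnit_zero h2
  obtain ⟨σ⟩ : Nonempty (k →+* ℂ) := inferInstance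
  obtain ⟨N, hN, hnilN⟩ := nilp_of_roots (rO σ) (rO_inj σ) A
    (roots_torsion hn hE0 S F m e A.charpoly A.charpoly_monic
      (by rw [Matrix.charpoly_natDegree_eq_dim, Fintype.card_fin]) hdet hm hS
      (fun τ hτ l hl => hout τ hτ l (by rw [hchar]; exact hl))
      (fun τ hτ l hl => by
        have h1 := hcon τ hτ l (by rw [hchar]; exact hl)
        have h2 : ‖l‖ ≤ ‖l - 1‖ + ‖(1 : ℂ)‖ := by
          have := norm_add_le (l - 1) 1
          rwa [sub_add_cancel] at this
        rw [norm_one] at h2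
        linarith) σ)
  exact hnil N hN hnilN

end Pool.Agent.W685.AB
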