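import Mathlib

set_option autoImplicit false
set_option linter.unusedSectionVars false

namespace Pool.Agent.W685.AB

open Polynomial

variable {E : Type} [Field E] [NumberField E] [IsGalois ℚ E]

/-- the automorphisms that fix all `m`-th roots of unity -/
def H (E : Type) [Field E] [NumberField E] (m : ℕ) : Subgroup (E ≃ₐ[ℚ] E) where
  carrier := {g | ∀ z : E, z ^ m = 1 → g z = z}
  mul_mem' := by
    intro a b ha hb z hz
    rw [AlgEquiv.mul_apply, hb z hz, ha z hz]
  one_mem' := fun z _ => rfl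
  inv_mem' := by
    intro a ha z hz
    have : a⁻¹ (a z) = z := AlgEquiv.symm_apply_apply a z
    rwa [ha z hz] at this

theorem mem_H {m : ℕ} {g : E ≃ₐ[ℚ] E} : g ∈ H E m ↔ ∀ z : E, z ^ m = 1 → g z = z := Iff.rfl

theorem isInt_map (g : E ≃ₐ[ℚ] E) {x : E} (hx : IsIntegral ℤ x) : IsIntegral ℤ (g x) :=
  hx.map (g.toAlgHom.restrictScalars ℤ)

/-- integral elements fixed by `H m` lie in `ℤ[ζ]` -/
theorem mem_adjoin {m : ℕ} (hm : 0 < m) {z : E} (hz : IsPrimitiveRoot z m) {x : E}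
    (hx : IsIntegral ℤ x) (hfix : ∀ g ∈ H E m, g x = x) : x ∈ Algebra.adjoin ℤ {z} := by
  have : NeZero m := ⟨hm.ne'⟩
  set K : IntermediateField ℚ E := IntermediateField.adjoin ℚ {z} with hK
  have hcyc : IsCyclotomicExtension {m} ℚ K := by
    have h := hz.intermediateField_adjoin_isCyclotomicExtension ℚ
    have e : (K.algebra' : Algebra ℚ K) = DivisionRing.toRatAlgebra := Subsingleton.elim _ _
    rw [← e]
    exact h
  have hzK : z ∈ K := IntermediateField.mem_adjoin_simple_self ℚ z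
  have hxK : x ∈ K := by
    rw [← IsGalois.fixedField_fixingSubgroup K, IntermediateField.mem_fixedField_iff]
    intro g hg
    refine hfix g fun w hw => ?_
    obtain ⟨i, _, hi⟩ := hz.eq_pow_of_pow_eq_one hw
    rw [← hi, map_pow, (IntermediateField.mem_fixingSubgroup_iff K g).mp hg z hzK]
  have hzz : IsPrimitiveRoot (⟨z, hzK⟩ : K) m := IsPrimitiveRoot.coe_submonoidClass_iff.mp hz
  have hcl := IsCyclotomicExtension.Rat.isIntegralClosure_adjoin_singleton hzz
  have hx' : IsIntegral ℤ (⟨x, hxK⟩ : K) := by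
    have h1 : Function.Injective (algebraMap K E) := (algebraMap K E).injective
    exact (isIntegral_algebraMap_iff (R := ℤ) h1).mp hx
  obtain ⟨y, hy⟩ := hcl.isIntegral_iff.mp hx'
  have h2 : (⟨x, hxK⟩ : K) ∈ Algebra.adjoin ℤ {(⟨z, hzK⟩ : K)} := by
    rw [← hy]; exact y.2
  have h3 : K.val.restrictScalars ℤ (⟨x, hxK⟩ : K) ∈
      (Algebra.adjoin ℤ {(⟨z, hzK⟩ : K)}).map (K.val.restrictScalars ℤ) :=
    Subalgebra.mem_map.mpr ⟨_, h2, rfl⟩
  rw [AlgHom.map_adjoin] at h3
  simpa using h3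

/-- Galois conjugates of roots of unity -/
theorem exists_gal {m : ℕ} (hm : 0 < m) {z : E} (hz : IsPrimitiveRoot z m) {a : ℕ}
    (ha : a.Coprime m) : ∃ g : E ≃ₐ[ℚ] E, g z = z ^ a := by
  have h1 := hz.pow_of_coprime a ha
  have h2 : minpoly ℚ (z ^ a) = minpoly ℚ z := by
    exact (cyclotomic_eq_minpoly_rat h1 hm).symm.trans (cyclotomic_eq_minpoly_rat hz hm)
  obtain ⟨g, hg⟩ := (Normal.minpoly_eq_iff_mem_orbit (F := ℚ) (E := E)).mp h2
  exact ⟨g, hg⟩

/-- an algebraic integer whose norm has modulus `< 1` vanishes -/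
theorem eq_zero_of_small (ι : E →+* ℂ) {y : E} (hy : IsIntegral ℤ y)
    (h : ∏ g : E ≃ₐ[ℚ] E, ‖ι (g y)‖ < 1) : y = 0 := by
  have h1 := Algebra.norm_eq_prod_automorphisms ℚ y
  have h2 : IsIntegral ℤ (Algebra.norm ℚ y) := Algebra.isIntegral_norm ℚ hy
  obtain ⟨a, ha⟩ := IsIntegrallyClosed.isIntegral_iff.mp h2
  have h3 : ‖ι (algebraMap ℚ E (Algebra.norm ℚ y))‖ < 1 := by
    rw [h1, map_prod, norm_prod]; exact h
  rw [← ha] at h3
  simp only [eq_intCast, map_intCast, Complex.norm_intCast] at h3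
  have h4 : a = 0 := by
    by_contra hne
    have : (1 : ℝ) ≤ |(a : ℝ)| := by exact_mod_cast Int.one_le_abs hne
    linarith
  rw [h4, map_zero] at ha
  exact Algebra.norm_eq_zero_iff.mp ha.symm

end Pool.Agent.W685.AB
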