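import Pool.Agent.W685.AB.D1

set_option autoImplicit false
set_option linter.unusedSectionVars false

namespace Pool.Agent.W685.AB

open Polynomial

variable {E : Type} [Field E] [NumberField E] [IsGalois ℚ E]

/-- the ring of integers of `E` -/
abbrev O (E : Type) [Field E] : Subalgebra ℤ E := integralClosure ℤ E

/-- the action of an automorphism on the integers -/
noncomputable def actO (g : E ≃ₐ[ℚ] E) : O E →+* O E :=
  ((g.toAlgHom.restrictScalars ℤ).mapIntegralClosure).toRingHom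

theorem coe_actO (g : E ≃ₐ[ℚ] E) (x : O E) : ((actO g x : O E) : E) = g x := rfl

/-- the coefficients of the polynomial with root set `T` -/
theorem coeff_mem {m : ℕ} (hm : 0 < m) {z : O E} (hz : IsPrimitiveRoot (z : E) m) (T : Finset (O E))
    (hT : ∀ g ∈ H E m, ∀ t ∈ T, actO g t ∈ T) (i : ℕ) :
    (∏ t ∈ T, (X - C t)).coeff i ∈ Algebra.adjoin ℤ {z} := by
  set F : (O E)[X] := ∏ t ∈ T, (X - C t) with hF
  have hfix : ∀ g ∈ H E m, F.map (actO g) = F := by
    intro g hg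
    rw [hF, Polynomial.map_prod]
    simp only [Polynomial.map_sub, map_X, map_C]
    refine Finset.prod_bij (fun t _ => actO g t) (fun t ht => hT g hg t ht) ?_ ?_ ?_
    · intro a _ b _ hab
      have : g (a : E) = g (b : E) := congrArg Subtype.val hab
      exact Subtype.ext (g.injective this)
    · intro b hb
      refine ⟨actO g⁻¹ b, hT _ (inv_mem hg) b hb, ?_⟩
      apply Subtype.ext
      rw [coe_actO, coe_actO]
      exact AlgEquiv.apply_symm_apply g (b : E)
    · intro a _; rfl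
  have h1 : ((F.coeff i : O E) : E) ∈ Algebra.adjoin ℤ {(z : E)} := by
    refine mem_adjoin hm hz (F.coeff i).2 fun g hg => ?_
    have h2 := congrArg (fun P => (P.coeff i : O E)) (hfix g hg)
    simp only [coeff_map] at h2
    have h3 := congrArg (Subtype.val) h2
    rw [← coe_actO]; exact h3
  have h2 : Algebra.adjoin ℤ {(z : E)} = (Algebra.adjoin ℤ {z}).map (O E).val := by
    rw [AlgHom.map_adjoin]; simp
  rw [h2] at h1
  obtain ⟨y, hy, hy'⟩ := h1
  have : y = F.coeff i := Subtype.ext hy'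
  rw [← this]; exact hy

/-- two ring homomorphisms which agree on `ζ` -/
theorem gen_cong {R : Type} [CommRing R] {m : ℕ} (hm : 0 < m) {z : O E}
    (hz : IsPrimitiveRoot (z : E) m) (T : Finset (O E))
    (hT : ∀ g ∈ H E m, ∀ t ∈ T, actO g t ∈ T) {a : O E} (ha : a ∈ T) (φ ψ : O E →+* R)
    (h : φ z = ψ z) : ∏ t ∈ T, (ψ a - φ t) = 0 := by
  set F : (O E)[X] := ∏ t ∈ T, (X - C t) with hF
  have h1 : F.map φ = F.map ψ := by
    ext i
    rw [coeff_map, coeff_map]
    have hc := coeff_mem hm hz T hT i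
    rw [← hF] at hc
    refine Algebra.adjoin_induction (p := fun x _ => φ x = ψ x) ?_ ?_ ?_ ?_ hc
    · intro x hx
      rw [Set.mem_singleton_iff] at hx; rw [hx, h]
    · intro r; rw [eq_intCast, map_intCast, map_intCast]
    · intro x y _ _ hx hy; rw [map_add, map_add, hx, hy]
    · intro x y _ _ hx hy; rw [map_mul, map_mul, hx, hy]
  have h2 : F.eval a = 0 := by
    rw [hF, eval_prod]
    refine Finset.prod_eq_zero ha ?_
    simp
  have h3 : (F.map ψ).eval (ψ a) = 0 := by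
    rw [eval_map, eval₂_at_apply, h2, map_zero]
  rw [← h1, hF, Polynomial.map_prod, eval_prod] at h3
  simpa using h3

/-- The Frobenius congruences. -/
theorem congr_dvd {m : ℕ} (hm : 0 < m) {z : O E} (hz : IsPrimitiveRoot (z : E) m)
    (T : Finset (O E)) (hT : ∀ g ∈ H E m, ∀ t ∈ T, actO g t ∈ T) {a : O E} (ha : a ∈ T)
    (g : E ≃ₐ[ℚ] E) {p : ℕ} (hp : p.Prime) (e : ℕ) (he : e = 1 ∨ e = p)
    (h : (g z) ^ e = (z : E) ^ p) :
    (p : O E) ∣ ∏ t ∈ T, ((actO g a) ^ e - t ^ p) := by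
  by_cases hu : IsUnit (p : O E)
  · exact hu.dvd
  have : Fact p.Prime := ⟨hp⟩
  set I : Ideal (O E) := Ideal.span {(p : O E)} with hI
  have hchar : CharP (O E ⧸ I) p := CharP.quotient (O E) p hu
  have : ExpChar (O E ⧸ I) p := ExpChar.prime hp
  rw [← Ideal.mem_span_singleton, ← hI, ← Ideal.Quotient.eq_zero_iff_mem]
  have hge : (actO g z) ^ e = z ^ p := by
    apply Subtype.ext
    simpa [coe_actO] using h
  rcases he with rfl | rfl
  · have := gen_cong (R := O E ⧸ I) hm hz T hT ha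
      ((frobenius (O E ⧸ I) p).comp (Ideal.Quotient.mk I))
      ((Ideal.Quotient.mk I).comp (actO g)) (by
        simp only [RingHom.comp_apply, frobenius_def]
        rw [← map_pow, ← hge, pow_one])
    simp only [RingHom.comp_apply, frobenius_def] at this
    rw [map_prod]
    simpa using this
  · have := gen_cong (R := O E ⧸ I) hm hz T hT ha
      ((frobenius (O E ⧸ I) e).comp (Ideal.Quotient.mk I))
      ((frobenius (O E ⧸ I) e).comp ((Ideal.Quotient.mk I).comp (actO g))) (by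
        simp only [RingHom.comp_apply, frobenius_def]
        rw [← map_pow, ← hge, map_pow])
    simp only [RingHom.comp_apply, frobenius_def] at this
    rw [map_prod]
    simpa using this

/-- the Mahler-type measure of an element: the product over the Galois group of
`max 1 |g x|` -/
noncomputable def Hp (ι : E →+* ℂ) (x : E) : ℝ := ∏ g : E ≃ₐ[ℚ] E, max 1 ‖ι (g x)‖

theorem Hp_gal (ι : E →+* ℂ) (h : E ≃ₐ[ℚ] E) (x : E) : Hp ι (h x) = Hp ι x := by
  unfold Hp
  exact Fintype.prod_equiv (Equiv.mulRight h) _ _ fun g => rfl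

theorem one_le_Hp (ι : E →+* ℂ) (x : E) : 1 ≤ Hp ι x := by
  unfold Hp
  calc (1 : ℝ) = ∏ g : E ≃ₐ[ℚ] E, (1 : ℝ) := by rw [Finset.prod_const_one]
    _ ≤ _ := Finset.prod_le_prod (fun _ _ => zero_le_one) fun g _ => le_max_left _ _

/-- If `|T| ≤ D`, `3 ^ D < p` and `Hp (t) ^ (2 p) ≤ (3 / 2) ^ [E : ℚ]` for the elements of `T`
then the Frobenius congruence is an equality. -/
theorem exists_eq_pow (ι : E →+* ℂ) {D p : ℕ} (hp : p.Prime) (hpD : (3 : ℝ) ^ D < p) {B : ℝ}
    (hB1 : 1 ≤ B) (hB : B ^ (2 * p) ≤ (3 / 2) ^ (Fintype.card (E ≃ₐ[ℚ] E))) {m : ℕ} (hm : 0 < m)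
    {z : O E} (hz : IsPrimitiveRoot (z : E) m)
    (T : Finset (O E)) (hT : ∀ g ∈ H E m, ∀ t ∈ T, actO g t ∈ T) (hTD : T.card ≤ D)
    (hTc : ∀ t ∈ T, Hp ι (t : E) ≤ B) {a : O E} (ha : a ∈ T)
    (g : E ≃ₐ[ℚ] E) (e : ℕ) (he : e = 1 ∨ e = p)
    (h : (g z) ^ e = (z : E) ^ p) :
    ∃ t ∈ T, (g (a : E)) ^ e = (t : E) ^ p := by
  obtain ⟨b, hb⟩ := congr_dvd hm hz T hT ha g hp e he h
  have hp0 : (0 : ℝ) < p := by exact_mod_cast hp.pos
  have h2 : ((∏ t ∈ T, ((actO g a) ^ e - t ^ p) : O E) : E)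
      = ∏ t ∈ T, ((g (a : E)) ^ e - (t : E) ^ p) := by
    rw [← Subalgebra.coe_val, map_prod]
    refine Finset.prod_congr rfl fun t _ => ?_
    simp [coe_actO]
  have h3 : (((p : O E) * b : O E) : E) = (p : E) * (b : E) := by
    rw [MulMemClass.coe_mul]; simp
  set N : ℕ := Fintype.card (E ≃ₐ[ℚ] E) with hN
  have hNpos : 0 < N := Fintype.card_pos
  have hb0 : (b : E) = 0 := by
    refine eq_zero_of_small ι b.2 ?_
    have hk : ∀ k : E ≃ₐ[ℚ] E, (p : ℝ) * ‖ι (k (b : E))‖ ≤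
        ∏ t ∈ T, (2 * (max 1 ‖ι (k (g (a : E)))‖ ^ p * max 1 ‖ι (k (t : E))‖ ^ p)) := by
      intro k
      have h1 := congrArg (fun x : O E => ‖ι (k (x : E))‖) hb
      try beta_reduce at h1
      rw [h2, h3] at h1
      simp only [map_prod, map_mul, map_sub, map_pow, map_natCast, norm_mul, norm_prod,
        Complex.norm_natCast] at h1
      rw [← h1]
      refine Finset.prod_le_prod (fun _ _ => norm_nonneg _) fun t ht => ?_
      have m1 : (1 : ℝ) ≤ max 1 ‖ι (k (g (a : E)))‖ := le_max_left _ _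
      have m2 : (1 : ℝ) ≤ max 1 ‖ι (k (t : E))‖ := le_max_left _ _
      have m1p : (1 : ℝ) ≤ max 1 ‖ι (k (g (a : E)))‖ ^ p := one_le_pow₀ m1
      have m2p : (1 : ℝ) ≤ max 1 ‖ι (k (t : E))‖ ^ p := one_le_pow₀ m2
      have h7 : ‖ι (k (g (a : E)))‖ ^ e ≤ max 1 ‖ι (k (g (a : E)))‖ ^ p := by
        have hle : ‖ι (k (g (a : E)))‖ ^ e ≤ max 1 ‖ι (k (g (a : E)))‖ ^ e :=
          pow_le_pow_left₀ (norm_nonneg _) (le_max_right _ _) _
        refine hle.trans (pow_le_pow_right₀ m1 ?_)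
        rcases he with rfl | rfl
        · exact hp.one_le
        · exact le_rfl
      have h8 : ‖ι (k (t : E))‖ ^ p ≤ max 1 ‖ι (k (t : E))‖ ^ p :=
        pow_le_pow_left₀ (norm_nonneg _) (le_max_right _ _) _
      calc _ ≤ ‖ι (k (g (a : E))) ^ e‖ + ‖ι (k (t : E)) ^ p‖ := norm_sub_le _ _
        _ = ‖ι (k (g (a : E)))‖ ^ e + ‖ι (k (t : E))‖ ^ p := by rw [norm_pow, norm_pow]
        _ ≤ max 1 ‖ι (k (g (a : E)))‖ ^ p + max 1 ‖ι (k (t : E))‖ ^ p := add_le_add h7 h8
        _ ≤ _ := by nlinarith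
    have h4 : (p : ℝ) ^ N * ∏ k : E ≃ₐ[ℚ] E, ‖ι (k (b : E))‖ ≤ (3 ^ D) ^ N := by
      calc (p : ℝ) ^ N * ∏ k : E ≃ₐ[ℚ] E, ‖ι (k (b : E))‖
          = ∏ k : E ≃ₐ[ℚ] E, ((p : ℝ) * ‖ι (k (b : E))‖) := by
            rw [Finset.prod_mul_distrib, Finset.prod_const, Finset.card_univ]
        _ ≤ ∏ k : E ≃ₐ[ℚ] E,
            ∏ t ∈ T, (2 * (max 1 ‖ι (k (g (a : E)))‖ ^ p * max 1 ‖ι (k (t : E))‖ ^ p)) :=
            Finset.prod_le_prod (fun _ _ => mul_nonneg hp0.le (norm_nonneg _)) fun k _ => hk k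
        _ = ∏ t ∈ T, ∏ k : E ≃ₐ[ℚ] E,
            (2 * (max 1 ‖ι (k (g (a : E)))‖ ^ p * max 1 ‖ι (k (t : E))‖ ^ p)) :=
            Finset.prod_comm
        _ = ∏ t ∈ T, (2 ^ N * (Hp ι (g (a : E)) ^ p * Hp ι (t : E) ^ p)) := by
            refine Finset.prod_congr rfl fun t _ => ?_
            rw [Finset.prod_mul_distrib, Finset.prod_mul_distrib, Finset.prod_const,
              Finset.card_univ, Finset.prod_pow, Finset.prod_pow]
            rfl
        _ ≤ ∏ t ∈ T, (3 : ℝ) ^ N := by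
            refine Finset.prod_le_prod (fun t _ => ?_) fun t ht => ?_
            · have := one_le_Hp ι (g (a : E))
              have := one_le_Hp ι (t : E)
              positivity
            · have e1 : Hp ι (g (a : E)) ^ p ≤ B ^ p := by
                rw [Hp_gal]
                exact pow_le_pow_left₀ (zero_le_one.trans (one_le_Hp ι _)) (hTc a ha) _
              have e2 : Hp ι (t : E) ^ p ≤ B ^ p :=
                pow_le_pow_left₀ (zero_le_one.trans (one_le_Hp ι _)) (hTc t ht) _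
              have e3 : Hp ι (g (a : E)) ^ p * Hp ι (t : E) ^ p ≤ B ^ p * B ^ p :=
                mul_le_mul e1 e2 (pow_nonneg (zero_le_one.trans (one_le_Hp ι _)) _)
                  (pow_nonneg (zero_le_one.trans hB1) _)
              calc _ ≤ (2 : ℝ) ^ N * (B ^ p * B ^ p) :=
                    mul_le_mul_of_nonneg_left e3 (by positivity)
                _ = 2 ^ N * B ^ (2 * p) := by rw [two_mul, pow_add]
                _ ≤ 2 ^ N * (3 / 2) ^ N := mul_le_mul_of_nonneg_left hB (by positivity)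
                _ = 3 ^ N := by rw [← mul_pow]; norm_num
        _ = (3 ^ N) ^ T.card := by rw [Finset.prod_const]
        _ ≤ (3 ^ N) ^ D := pow_le_pow_right₀ (one_le_pow₀ (by norm_num)) hTD
        _ = (3 ^ D) ^ N := by rw [← pow_mul, ← pow_mul, mul_comm]
    have h5 : ((3 : ℝ) ^ D) ^ N < (p : ℝ) ^ N := pow_lt_pow_left₀ hpD (by positivity) hNpos.ne'
    have h6 : (p : ℝ) ^ N * ∏ k : E ≃ₐ[ℚ] E, ‖ι (k (b : E))‖ < (p : ℝ) ^ N * 1 := by
      rw [mul_one]; exact lt_of_le_of_lt h4 h5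
    exact lt_of_mul_lt_mul_left h6 (by positivity)
  have h0 : (∏ t ∈ T, ((actO g a) ^ e - t ^ p) : O E) = 0 := by
    rw [hb]
    have : b = 0 := Subtype.ext hb0
    rw [this, mul_zero]
  obtain ⟨t, ht, ht'⟩ := Finset.prod_eq_zero_iff.mp h0
  refine ⟨t, ht, ?_⟩
  have := congrArg (Subtype.val) (sub_eq_zero.mp ht')
  simpa [coe_actO] using this

end Pool.Agent.W685.AB
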