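import Pool.Agent.W685.AB.D2

set_option autoImplicit false
set_option linter.unusedSectionVars false

namespace Pool.Agent.W685.AB

open Polynomial

variable {E : Type} [Field E] [NumberField E] [IsGalois ℚ E]

theorem gal_pow_root (g : E ≃ₐ[ℚ] E) {m : ℕ} {x : E} (hx : x ^ m = 1) : (g x) ^ m = 1 := by
  rw [← map_pow, hx, map_one]

theorem norm_root (ι : E →+* ℂ) {m : ℕ} (hm : 0 < m) {x : E} (hx : x ^ m = 1) : ‖ι x‖ = 1 := by
  have h : ‖ι x‖ ^ m = 1 := by rw [← norm_pow, ← map_pow, hx, map_one, norm_one]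
  exact (pow_eq_one_iff_of_nonneg (norm_nonneg _) hm.ne').mp h

theorem pow_eq_iff {n : ℕ} (hn : 0 < n) {z : E} (hz : IsPrimitiveRoot z n) (a b : ℕ) :
    z ^ a = z ^ b ↔ a ≡ b [MOD n] := by
  have h1 : IsOfFinOrder z := isOfFinOrder_iff_pow_eq_one.mpr ⟨n, hn, hz.pow_eq_one⟩
  rw [h1.pow_eq_pow_iff_modEq, ← hz.eq_orderOf]

theorem exists_g {p m' : ℕ} (hp : p.Prime) (hp3 : 3 ≤ p) (hm' : 0 < m') {z : E}
    (hz : IsPrimitiveRoot z (p * m')) : ∃ g : E ≃ₐ[ℚ] E, (g z) ^ p = z ^ p ∧
      (∀ h ∈ H E m', ∃ i : ℕ, h z = (g ^ i) z) ∧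
      (∀ w : E, w ^ p = 1 → ∃ y : E, y ^ (p * m') = 1 ∧ g y * w = y) := by
  have hm : 0 < p * m' := Nat.mul_pos hp.pos hm'
  have hw0 : IsPrimitiveRoot (z ^ m') p := hz.pow hm (mul_comm _ _)
  have : NeZero p := ⟨hp.ne_zero⟩
  have : NeZero (p * m') := ⟨hm.ne'⟩
  have hz0 : z ≠ 0 := hz.ne_zero hm.ne'
  have hH : ∀ h ∈ H E m', (h z) ^ p = z ^ p := by
    intro h hh
    rw [← map_pow]
    exact hh _ (by rw [← pow_mul]; exact hz.pow_eq_one)
  by_cases hdiv : p ∣ m'
  · -- `p ∣ m'`
    have hcop : (1 + m').Coprime (p * m') := by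
      refine Nat.Coprime.mul_right ?_ ?_
      · rw [Nat.coprime_comm, hp.coprime_iff_not_dvd]
        intro h
        exact hp.one_lt.ne' (Nat.dvd_one.mp ((Nat.dvd_add_left hdiv).mp h))
      · simp
    obtain ⟨g, hg⟩ := exists_gal hm hz hcop
    have hgw : g (z ^ m') = z ^ m' := by
      rw [map_pow, hg, ← pow_mul, add_mul, one_mul, pow_add]
      have : z ^ (m' * m') = 1 := by
        obtain ⟨s, hs⟩ := hdiv
        have : m' * m' = (p * m') * s := by
          conv_lhs => rw [hs]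
          rw [hs]; ring
        rw [this, pow_mul, hz.pow_eq_one, one_pow]
      rw [this, mul_one]
    have hgi : ∀ i : ℕ, (g ^ i) z = z * (z ^ m') ^ i := by
      intro i
      induction i with
      | zero => simp
      | succ i ih =>
        rw [pow_succ', AlgEquiv.mul_apply, ih, map_mul, map_pow, hgw, hg, pow_add, pow_one,
          pow_succ]
        ring
    refine ⟨g, ?_, ?_, ?_⟩
    · rw [hg, ← pow_mul, add_mul, one_mul, pow_add, mul_comm m' p, hz.pow_eq_one, mul_one]
    · intro h hh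
      have h1 : (h z / z) ^ p = 1 := by
        rw [div_pow, hH h hh, div_self (pow_ne_zero _ hz0)]
      obtain ⟨i, _, hi⟩ := hw0.eq_pow_of_pow_eq_one h1
      refine ⟨i, ?_⟩
      rw [hgi, hi, mul_div_cancel₀ _ hz0]
    · intro w hw
      obtain ⟨j, _, hj⟩ := hw0.eq_pow_of_pow_eq_one hw
      refine ⟨z ^ ((p - 1) * j), ?_, ?_⟩
      · rw [← pow_mul, mul_comm, pow_mul, hz.pow_eq_one, one_pow]
      · rw [map_pow, hg, ← hj, pow_add, mul_pow, pow_one, mul_assoc]
        have : (z ^ m') ^ ((p - 1) * j) * (z ^ m') ^ j = 1 := by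
          rw [← pow_add]
          have : (p - 1) * j + j = p * j := by
            obtain ⟨q, rfl⟩ : ∃ q, p = q + 1 := ⟨p - 1, by omega⟩
            simp; ring
          rw [this, pow_mul, hw0.pow_eq_one, one_pow]
        rw [this, mul_one]
  · -- `p ∤ m'`
    have hcop : Nat.Coprime p m' := (hp.coprime_iff_not_dvd).mpr hdiv
    have : Fact p.Prime := ⟨hp⟩
    obtain ⟨t, ht⟩ := IsCyclic.exists_generator (α := (ZMod p)ˣ)
    obtain ⟨r, hr1, hr2⟩ := Nat.chineseRemainder hcop (t : ZMod p).val 1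
    have hrp : (r : ZMod p) = (t : ZMod p) := by
      have := (ZMod.natCast_eq_natCast_iff _ _ _).mpr hr1
      rwa [ZMod.natCast_zmod_val] at this
    have hrcop : r.Coprime (p * m') := by
      refine Nat.Coprime.mul_right ?_ ?_
      · rw [Nat.coprime_comm, hp.coprime_iff_not_dvd]
        intro h
        rw [(ZMod.natCast_eq_zero_iff r p).mpr h] at hrp
        exact t.ne_zero hrp.symm
      · have : Nat.gcd r m' = Nat.gcd 1 m' := hr2.gcd_eq
        rw [Nat.Coprime, this, Nat.gcd_one_left]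
    obtain ⟨g, hg⟩ := exists_gal hm hz hrcop
    have hgi : ∀ i : ℕ, (g ^ i) z = z ^ (r ^ i) := by
      intro i
      induction i with
      | zero => simp
      | succ i ih =>
        rw [pow_succ', AlgEquiv.mul_apply, ih, map_pow, hg, ← pow_mul, pow_succ']
    have hord : orderOf z = p * m' := hz.eq_orderOf.symm
    refine ⟨g, ?_, ?_, ?_⟩
    · rw [hg, ← pow_mul]
      rw [pow_eq_iff hm hz, mul_comm r p]
      simpa using hr2.mul_left' p
    · intro h hh
      obtain ⟨b, _, hb⟩ := hz.eq_pow_of_pow_eq_one (gal_pow_root h hz.pow_eq_one)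
      have hb1 : b ≡ 1 [MOD m'] := by
        have h1 := hH h hh
        rw [← hb, ← pow_mul, pow_eq_iff hm hz, mul_comm b p] at h1
        have h2 : p * b ≡ p * 1 [MOD p * m'] := by simpa using h1
        exact Nat.ModEq.mul_left_cancel' hp.ne_zero h2
      have hbcop : b.Coprime (p * m') := by
        have h1 : IsPrimitiveRoot (h z) (p * m') := hz.map_of_injective h.injective
        rw [← hb] at h1
        exact (hz.pow_iff_coprime hm b).mp h1
      have hbp : b.Coprime p := Nat.Coprime.coprime_mul_right_right hbcop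
      obtain ⟨i, hi⟩ := mem_powers_iff_mem_zpowers.mpr (ht (ZMod.unitOfCoprime b hbp))
      refine ⟨i, ?_⟩
      rw [hgi, ← hb, pow_eq_iff hm hz, ← Nat.modEq_and_modEq_iff_modEq_mul hcop]
      constructor
      · rw [← ZMod.natCast_eq_natCast_iff]
        push_cast
        rw [hrp]
        have := congrArg (Units.val) hi
        simpa using this.symm
      · have := hr2.pow i
        rw [one_pow] at this
        exact hb1.trans this.symm
    · intro w hw
      obtain ⟨j, _, hj⟩ := hw0.eq_pow_of_pow_eq_one hw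
      have hr1' : (r : ZMod p) - 1 ≠ 0 := by
        rw [hrp]
        intro h0
        have ht1 : t = 1 := Units.ext (sub_eq_zero.mp h0)
        have hc : Fintype.card (ZMod p)ˣ = p - 1 := ZMod.card_units p
        have : Fintype.card (ZMod p)ˣ = 1 := by
          rw [Fintype.card_eq_one_iff]
          refine ⟨1, fun y => ?_⟩
          obtain ⟨i, hi⟩ := ht y
          rw [← hi, ht1]; simp
        omega
      refine ⟨(z ^ m') ^ ((-(j : ZMod p) / ((r : ZMod p) - 1)).val), ?_, ?_⟩
      · rw [← pow_mul, mul_comm, pow_mul, ← pow_mul z, mul_comm m' (p * m'), pow_mul,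
          hz.pow_eq_one, one_pow, one_pow]
      · rw [map_pow, map_pow, hg, ← hj, ← pow_mul z r m', mul_comm r m', pow_mul z m' r, ← pow_mul,
          ← pow_add, pow_eq_iff hp.pos hw0, ← ZMod.natCast_eq_natCast_iff]
        push_cast
        rw [ZMod.natCast_zmod_val]
        field_simp
        ring

/-- the `H m`-orbit of an algebraic integer -/
def T (m : ℕ) (a : O E) : Set (O E) := {x | ∃ h ∈ H E m, actO h a = x}

theorem mem_T {m : ℕ} {a x : O E} : x ∈ T m a ↔ ∃ h ∈ H E m, actO h a = x := Iff.rfl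

theorem finite_conj (a : O E) : {x : O E | ∃ g : E ≃ₐ[ℚ] E, actO g a = x}.Finite :=
  Set.finite_range (fun g : E ≃ₐ[ℚ] E => actO g a)

theorem finite_T (m : ℕ) (a : O E) : (T m a).Finite :=
  (finite_conj a).subset fun _ ⟨h, _, hx⟩ => ⟨h, hx⟩

theorem torsion_of_frob {a : O E} {p : ℕ} (hp : 1 < p) {u : E ≃ₐ[ℚ] E}
    (hu : u (a : E) = (a : E) ^ p) : a = 0 ∨ ∃ n > 0, a ^ n = 1 := by
  have h1 : ∀ i : ℕ, (u ^ i) (a : E) = (a : E) ^ (p ^ i) := by
    intro i
    induction i with
    | zero => simp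
    | succ i ih =>
      rw [pow_succ', AlgEquiv.mul_apply, ih, map_pow, hu, ← pow_mul, pow_succ']
  obtain ⟨i, j, hij, h2⟩ : ∃ i j : ℕ, i < j ∧ (a : E) ^ (p ^ i) = (a : E) ^ (p ^ j) := by
    by_contra hcon
    push Not at hcon
    have hinj : Function.Injective (fun i : ℕ => a ^ (p ^ i)) := by
      intro i j hij
      have h3 : (a : E) ^ (p ^ i) = (a : E) ^ (p ^ j) := by
        have := congrArg (Subtype.val) hij
        simpa using this
      rcases lt_trichotomy i j with h | h | h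
      · exact absurd h3 (hcon i j h)
      · exact h
      · exact absurd h3.symm (hcon j i h)
    refine Set.infinite_of_injective_forall_mem hinj (s := {x : O E | ∃ g : E ≃ₐ[ℚ] E, actO g a = x})
      ?_ (finite_conj a)
    intro i
    refine ⟨u ^ i, ?_⟩
    apply Subtype.ext
    rw [coe_actO, h1 i]
    simp
  by_cases ha : a = 0
  · exact Or.inl ha
  refine Or.inr ⟨p ^ j - p ^ i, ?_, ?_⟩
  · exact Nat.sub_pos_of_lt (Nat.pow_lt_pow_right hp hij)
  · have ha' : (a : E) ≠ 0 := fun h => ha (Subtype.ext h)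
    apply Subtype.ext
    have h3 : p ^ i ≤ p ^ j := (Nat.pow_lt_pow_right hp hij).le
    have h4 : (a : E) ^ (p ^ i) * (a : E) ^ (p ^ j - p ^ i) = (a : E) ^ (p ^ i) * 1 := by
      rw [← pow_add, Nat.add_sub_cancel' h3, mul_one, h2]
    have h5 := mul_left_cancel₀ (pow_ne_zero _ ha') h4
    simpa using h5

theorem Hp_root (ι : E →+* ℂ) {m : ℕ} (hm : 0 < m) {y : E} (hy : y ^ m = 1) (x : E) :
    Hp ι (y * x) = Hp ι x := by
  unfold Hp
  refine Finset.prod_congr rfl fun g _ => ?_
  rw [map_mul, map_mul, norm_mul, norm_root ι hm (gal_pow_root g hy), one_mul]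

/-- **The relative height bound over cyclotomic fields.** -/
theorem house (ι : E →+* ℂ) {D p : ℕ} (hp : p.Prime) (hp3 : 3 ≤ p) (hpD : (3 : ℝ) ^ D < p) :
    ∀ m : ℕ, 0 < m → (∃ z : E, IsPrimitiveRoot z m) → ∀ a : O E, (T m a).ncard ≤ D →
    Hp ι (a : E) ^ (2 * p) ≤ (3 / 2) ^ (Fintype.card (E ≃ₐ[ℚ] E)) →
    a = 0 ∨ ∃ n > 0, a ^ n = 1 := by
  intro m
  induction m using Nat.strong_induction_on with
  | _ m ih =>
  intro hm hprim a hTD hac
  have : NeZero m := ⟨hm.ne'⟩
  obtain ⟨z₀, hz₀⟩ := hprim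
  have hzint : IsIntegral ℤ z₀ := IsIntegral.of_pow hm (by rw [hz₀.pow_eq_one]; exact isIntegral_one)
  set z : O E := ⟨z₀, hzint⟩ with hzdef
  have hz : IsPrimitiveRoot (z : E) m := hz₀
  have hfin := finite_T m a
  -- the finite set of `H m`-conjugates
  set S : Finset (O E) := hfin.toFinset with hS
  have hSstab : ∀ g ∈ H E m, ∀ t ∈ S, actO g t ∈ S := by
    intro g hg t ht
    rw [hS, Set.Finite.mem_toFinset] at ht ⊢
    obtain ⟨h, hh, rfl⟩ := ht
    exact ⟨g * h, mul_mem hg hh, rfl⟩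
  have hScard : S.card ≤ D := by
    rw [hS, ← Set.ncard_eq_toFinset_card _ hfin]; exact hTD
  have hSc : ∀ t ∈ S, Hp ι (t : E) ≤ Hp ι (a : E) := by
    intro t ht
    rw [hS, Set.Finite.mem_toFinset] at ht
    obtain ⟨h, hh, rfl⟩ := ht
    rw [coe_actO, Hp_gal]
  have haS : a ∈ S := by
    rw [hS, Set.Finite.mem_toFinset]
    exact ⟨1, one_mem _, rfl⟩
  by_cases hpm : p ∣ m
  · -- `p ∣ m`
    obtain ⟨m', rfl⟩ := hpm
    have hm' : 0 < m' := by
      rcases Nat.eq_zero_or_pos m' with h0 | h0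
      · rw [h0] at hm; simp at hm
      · exact h0
    by_cases ha0 : a = 0
    · exact Or.inl ha0
    have ha0' : (a : E) ≠ 0 := fun h => ha0 (Subtype.ext h)
    obtain ⟨g, hg1, hg2, hg3⟩ := exists_g hp hp3 hm' hz
    obtain ⟨t, ht, hgt⟩ := exists_eq_pow ι hp hpD (one_le_Hp ι _) hac hm hz S hSstab hScard hSc haS g p
      (Or.inr rfl) hg1
    rw [hS, Set.Finite.mem_toFinset] at ht
    obtain ⟨k, hk, rfl⟩ := ht
    rw [coe_actO] at hgt
    have hka : k (a : E) ≠ 0 := by
      rw [Ne, map_eq_zero]; exact ha0'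
    set w : E := g (a : E) / k (a : E) with hw
    have hwp : w ^ p = 1 := by
      rw [hw, div_pow, hgt, div_self (pow_ne_zero _ hka)]
    have hga : g (a : E) = w * k (a : E) := by rw [hw, div_mul_cancel₀ _ hka]
    set u : E ≃ₐ[ℚ] E := k⁻¹ * g with hu
    have hkinv : k⁻¹ ∈ H E (p * m') := inv_mem hk
    have hroot : ∀ x : E, x ^ (p * m') = 1 → u x = g x := by
      intro x hx
      rw [hu, AlgEquiv.mul_apply]
      exact hkinv _ (gal_pow_root g hx)
    have hua : u (a : E) = w * a := by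
      rw [hu, AlgEquiv.mul_apply, hga, map_mul, hkinv w (by rw [pow_mul, hwp, one_pow])]
      congr 1
      exact AlgEquiv.symm_apply_apply k (a : E)
    obtain ⟨y, hy1, hy2⟩ := hg3 w hwp
    have hy0 : y ≠ 0 := by
      rintro rfl
      rw [zero_pow hm.ne'] at hy1
      exact zero_ne_one hy1
    have hyint : IsIntegral ℤ y := IsIntegral.of_pow hm (by rw [hy1]; exact isIntegral_one)
    have huya : u (y * a) = y * a := by
      rw [map_mul, hroot y hy1, hua, ← mul_assoc, hy2]
    set y' : O E := ⟨y, hyint⟩ with hy'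
    have hfixpow : ∀ i : ℕ, (u ^ i) (y * a) = y * a := by
      intro i
      induction i with
      | zero => simp
      | succ i ih => rw [pow_succ', AlgEquiv.mul_apply, ih, huya]
    have hupow : ∀ i : ℕ, ∀ x : E, x ^ (p * m') = 1 → (u ^ i) x = (g ^ i) x := by
      intro i
      induction i with
      | zero => intro x _; simp
      | succ i ih =>
        intro x hx
        rw [pow_succ', AlgEquiv.mul_apply, ih x hx, pow_succ', AlgEquiv.mul_apply]
        exact hroot _ (gal_pow_root _ hx)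
    -- the `H m'`-orbit of `y a`
    have hsub : T m' (y' * a) ⊆ (fun x => y' * x) '' T (p * m') a := by
      rintro _ ⟨h, hh, rfl⟩
      obtain ⟨i, hi⟩ := hg2 h hh
      rw [← hupow i _ hz.pow_eq_one] at hi
      set k' : E ≃ₐ[ℚ] E := h * (u ^ i)⁻¹ with hk'
      have hk'z : k' z = z := by
        have hx1 : ((u ^ i)⁻¹ (z : E)) ^ (p * m') = 1 := gal_pow_root _ hz.pow_eq_one
        obtain ⟨s, _, hs⟩ := hz.eq_pow_of_pow_eq_one hx1
        have h1 : (u ^ i) ((u ^ i)⁻¹ (z : E)) = z := AlgEquiv.apply_symm_apply (u ^ i) (z : E)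
        rw [hk', AlgEquiv.mul_apply, ← hs, map_pow, hi, ← map_pow, hs, h1]
      have hk'H : k' ∈ H E (p * m') := by
        intro x hx
        obtain ⟨s, _, hs⟩ := hz.eq_pow_of_pow_eq_one hx
        rw [← hs, map_pow, hk'z]
      refine ⟨actO k' a, ⟨k', hk'H, rfl⟩, ?_⟩
      apply Subtype.ext
      have h2 : h (y * a) = k' (y * a) := by
        rw [hk', AlgEquiv.mul_apply]
        have h3 : (u ^ i)⁻¹ (y * (a : E)) = y * a := by
          conv_lhs => rw [← hfixpow i]
          exact AlgEquiv.symm_apply_apply (u ^ i) (y * (a : E))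
        rw [h3]
      simp only [MulMemClass.coe_mul, coe_actO]
      have h4 : ((y' : O E) : E) = y := rfl
      rw [h4, h2, map_mul, hk'H y hy1]
    have hcard : (T m' (y' * a)).ncard ≤ D :=
      calc _ ≤ ((fun x => y' * x) '' T (p * m') a).ncard :=
            Set.ncard_le_ncard hsub (hfin.image _)
        _ ≤ (T (p * m') a).ncard := Set.ncard_image_le hfin
        _ ≤ D := hTD
    have hlt : m' < p * m' := by nlinarith
    have hnorm : Hp ι ((y' * a : O E) : E) ^ (2 * p) ≤
        (3 / 2) ^ (Fintype.card (E ≃ₐ[ℚ] E)) := by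
      have h1 : ((y' * a : O E) : E) = y * a := rfl
      rw [h1, Hp_root ι hm hy1]
      exact hac
    rcases ih m' hlt hm' ⟨_, hz.pow hm rfl⟩ (y' * a) hcard hnorm with h | ⟨n, hn, h⟩
    · have h1 : y * (a : E) = 0 := congrArg Subtype.val h
      exact absurd h1 (mul_ne_zero hy0 ha0')
    · refine Or.inr ⟨p * m' * n, Nat.mul_pos hm hn, ?_⟩
      have h1 : (y * (a : E)) ^ n = 1 := by
        have := congrArg Subtype.val h
        simpa using this
      apply Subtype.ext
      have h2 : (y * (a : E)) ^ (p * m' * n) = 1 := by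
        rw [mul_comm (p * m') n, pow_mul, h1, one_pow]
      rw [mul_pow, pow_mul, hy1, one_pow, one_mul] at h2
      simpa using h2
  · -- `p ∤ m`
    have hcop : p.Coprime m := hp.coprime_iff_not_dvd.mpr hpm
    obtain ⟨g, hg⟩ := exists_gal hm hz hcop
    obtain ⟨t, ht, hgt⟩ := exists_eq_pow ι hp hpD (one_le_Hp ι _) hac hm hz S hSstab hScard hSc haS g 1
      (Or.inl rfl) (by rw [pow_one, hg])
    rw [hS, Set.Finite.mem_toFinset] at ht
    obtain ⟨k, hk, rfl⟩ := ht
    rw [coe_actO, pow_one, ← map_pow] at hgt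
    refine torsion_of_frob hp.one_lt (u := k⁻¹ * g) ?_
    rw [AlgEquiv.mul_apply, hgt]
    exact AlgEquiv.symm_apply_apply k _

end Pool.Agent.W685.AB
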