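import Pool.Agent.W685.AB.D3

set_option autoImplicit false
set_option linter.unusedSectionVars false

namespace Pool.Agent.W685.AB

open Polynomial

theorem galois_conv {L : Type} [Field L] [CharZero L] {alg : Algebra ℚ L}
    (h : @IsGalois ℚ _ L _ alg) : @IsGalois ℚ _ L _ DivisionRing.toRatAlgebra := by
  have e : alg = DivisionRing.toRatAlgebra := Subsingleton.elim _ _
  subst e
  exact h

theorem fd_conv {L : Type} [Field L] [CharZero L] {alg : Algebra ℚ L}
    (h : @Module.Finite ℚ L _ _ alg.toModule) :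
    @Module.Finite ℚ L _ _ (DivisionRing.toRatAlgebra : Algebra ℚ L).toModule := by
  have e : alg = DivisionRing.toRatAlgebra := Subsingleton.elim _ _
  subst e
  exact h

theorem cyc_conv {L : Type} [Field L] [CharZero L] {m : ℕ} {alg : Algebra ℚ L}
    (h : @IsCyclotomicExtension {m} ℚ L _ _ alg) :
    @IsCyclotomicExtension {m} ℚ L _ _ DivisionRing.toRatAlgebra := by
  have e : alg = DivisionRing.toRatAlgebra := Subsingleton.elim _ _
  subst e
  exact h

/-- splitting fields over `ℚ` -/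
theorem split_aux (Q : ℚ[X]) (L : Type) [Field L] [CharZero L] [Algebra ℚ L]
    [IsSplittingField ℚ L Q] (hQ : Q ≠ 0) : FiniteDimensional ℚ L ∧ IsGalois ℚ L ∧
    ∃ ι : L →+* ℂ, ∀ a : ℂ, (Q.map (algebraMap ℚ ℂ)).IsRoot a → ∃ x, ι x = a := by
  have hfd : FiniteDimensional ℚ L := IsSplittingField.finiteDimensional _ Q
  have hn : Normal ℚ L := Normal.of_isSplittingField Q
  have hg : IsGalois ℚ L := ⟨⟩
  have hsplit : (Q.map (algebraMap ℚ ℂ)).Splits := IsAlgClosed.splits _
  let ι : L →ₐ[ℚ] ℂ := IsSplittingField.lift _ Q hsplit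
  refine ⟨hfd, hg, ι.toRingHom, fun a ha => ?_⟩
  have h1 : (Q.map (algebraMap ℚ L)).Splits := IsSplittingField.splits L Q
  have h2 : Q.map (algebraMap ℚ ℂ) = (Q.map (algebraMap ℚ L)).map ι.toRingHom := by
    rw [Polynomial.map_map]
    congr 1
    exact (ι.comp_algebraMap).symm
  rw [h2] at ha
  have h3 := h1.roots_map ι.toRingHom
  have hne : (Q.map (algebraMap ℚ L)).map ι.toRingHom ≠ 0 := by
    rw [← h2]; exact (Polynomial.map_ne_zero_iff (algebraMap ℚ ℂ).injective).mpr hQ
  have h4 : a ∈ ((Q.map (algebraMap ℚ L)).map ι.toRingHom).roots := (mem_roots hne).mpr ha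
  rw [h3, Multiset.mem_map] at h4
  obtain ⟨x, _, hx⟩ := h4
  exact ⟨x, hx⟩

/-- a Galois number field inside the complex numbers which contains given algebraic numbers -/
theorem exists_galois (s : Finset ℂ) (hs : ∀ a ∈ s, IsIntegral ℚ a) :
    ∃ (E : Type) (_ : Field E) (_ : NumberField E) (_ : IsGalois ℚ E) (ι : E →+* ℂ),
      ∀ a ∈ s, ∃ x, ι x = a := by
  classical
  set Q : ℚ[X] := ∏ a ∈ s, minpoly ℚ a with hQ
  have hQ0 : Q ≠ 0 := Finset.prod_ne_zero_iff.mpr fun a ha => minpoly.ne_zero (hs a ha)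
  have hchar : CharZero Q.SplittingField := inferInstance
  obtain ⟨h1, h2, ι, hι⟩ := @split_aux Q Q.SplittingField _ _ _ (IsSplittingField.splittingField Q) hQ0
  refine ⟨Q.SplittingField, inferInstance, ?_, ?_, ι, ?_⟩
  · exact @NumberField.mk _ _ hchar (fd_conv h1)
  · exact galois_conv h2
  · intro a ha
    refine hι a ?_
    rw [IsRoot, eval_map, hQ, eval₂_finsetProd]
    exact Finset.prod_eq_zero ha (minpoly.aeval ℚ a)

section Bridge

variable {E : Type} [Field E] [NumberField E] [IsGalois ℚ E]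

theorem fix_cyc {m : ℕ} (hm : 0 < m) {h : E ≃ₐ[ℚ] E} (hh : h ∈ H E m)
    (i : CyclotomicField m ℚ →+* E) (y : CyclotomicField m ℚ) : h (i y) = i y := by
  have : NeZero m := ⟨hm.ne'⟩
  have hc := cyc_conv (CyclotomicField.isCyclotomicExtension m ℚ)
  have hy := hc.adjoin_roots y
  refine Algebra.adjoin_induction (p := fun y _ => h (i y) = i y) ?_ ?_ ?_ ?_ hy
  · rintro x ⟨a, ha, _, hx⟩
    rw [Set.mem_singleton_iff] at ha
    subst ha
    exact hh _ (by rw [← map_pow, hx, map_one])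
  · intro r
    have : i (algebraMap ℚ (CyclotomicField m ℚ) r) = (r : E) := by
      rw [eq_ratCast, map_ratCast]
    rw [this, map_ratCast]
  · intro x y _ _ hx hy; rw [map_add, map_add, hx, hy]
  · intro x y _ _ hx hy; rw [map_mul, map_mul, hx, hy]

theorem conj_mem_H {m : ℕ} {h : E ≃ₐ[ℚ] E} (hh : h ∈ H E m) (g : E ≃ₐ[ℚ] E) :
    g⁻¹ * h * g ∈ H E m := by
  intro z hz
  rw [AlgEquiv.mul_apply, AlgEquiv.mul_apply, hh _ (gal_pow_root g hz)]
  exact AlgEquiv.symm_apply_apply g z

theorem cyc_lift {L : Type} [Field L] [CharZero L] [Algebra ℚ L] {m : ℕ}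
    [IsSplittingField ℚ L (cyclotomic m ℚ)]
    (h1 : ((cyclotomic m ℚ).map (algebraMap ℚ E)).Splits) : Nonempty (L →+* E) :=
  ⟨(IsSplittingField.lift L (cyclotomic m ℚ) h1).toRingHom⟩

theorem exists_cyc {m : ℕ} (hm : 0 < m) {z : E} (hz : IsPrimitiveRoot z m) :
    Nonempty (CyclotomicField m ℚ →+* E) := by
  have : NeZero m := ⟨hm.ne'⟩
  have h1 : ((cyclotomic m ℚ).map (algebraMap ℚ E)).Splits := by
    have h2 := Normal.splits (F := ℚ) (K := E) inferInstance z
    have h3 := cyclotomic_eq_minpoly_rat hz hm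
    rw [← h3] at h2
    exact h2
  exact @cyc_lift E _ _ _ (CyclotomicField m ℚ) _ _ _ m
    (IsSplittingField.splittingField (cyclotomic m ℚ)) h1

variable {k : Type} [Field k] [NumberField k]

theorem fix_F {m : ℕ} (hm : 0 < m) {z : E} (hz : IsPrimitiveRoot z m) {h : E ≃ₐ[ℚ] E}
    (hh : h ∈ H E m) (F : IntermediateField ℚ k) (e : F →+* CyclotomicField m ℚ) (j : k →+* E)
    (x : F) : h (j x) = j x := by
  obtain ⟨i⟩ := exists_cyc hm hz
  have h1 : minpoly ℚ (i (e x)) = minpoly ℚ (j (x : k)) := by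
    set q := minpoly ℚ (j (x : k)) with hq
    have ha : aeval (j (x : k)) q = 0 := minpoly.aeval _ _
    let φ : F →+* E := j.comp (algebraMap F k)
    have hb := Polynomial.aeval_algHom_apply φ.toRatAlgHom x q
    have hφ : φ.toRatAlgHom x = j (x : k) := rfl
    rw [hφ, ha] at hb
    have hc : aeval x q = 0 := (map_eq_zero_iff _ φ.injective).mp hb.symm
    have hd := Polynomial.aeval_algHom_apply (i.comp e).toRatAlgHom x q
    rw [hc, map_zero] at hd
    exact minpoly.eq_of_root (Algebra.IsAlgebraic.isAlgebraic _) hd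
  obtain ⟨g, hg⟩ := (Normal.minpoly_eq_iff_mem_orbit (F := ℚ) (E := E)).mp h1.symm
  have hg' : g (i (e x)) = j x := hg
  have h2 := fix_cyc hm (conj_mem_H hh g) i (e x)
  rw [AlgEquiv.mul_apply, AlgEquiv.mul_apply, hg'] at h2
  have h3 := congrArg g h2
  have h4 : g (g⁻¹ (h (j (x : k)))) = h (j (x : k)) := AlgEquiv.apply_symm_apply g _
  rw [hg', h4] at h3
  exact h3

end Bridge

end Pool.Agent.W685.AB
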