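import Pool.Agent.W685.AB.D4

set_option autoImplicit false
set_option linter.unusedSectionVars false

namespace Pool.Agent.W685.AB

open Polynomial NumberField
open scoped Classical

variable {E : Type} [Field E] [NumberField E] [IsGalois ℚ E]
variable {k : Type} [Field k] [NumberField k]

/-- the homomorphism on the ring of integers -/
noncomputable def rO {K : Type} [Field K] (j : k →+* K) : 𝓞 k →+* K := j.comp (algebraMap (𝓞 k) k)

theorem root_map {K L : Type} [Field K] [Field L] (j : k →+* K) (f : K →+* L) (P : (𝓞 k)[X]) {a : K}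
    (ha : (P.map (rO j)).IsRoot a) : (P.map (rO (f.comp j))).IsRoot (f a) := by
  have h1 : rO (f.comp j) = f.comp (rO j) := rfl
  rw [h1, ← Polynomial.map_map]
  exact ha.map

/-- the number of `H m`-conjugates of a root -/
theorem orbit_card {m : ℕ} (hm : 0 < m) {z : E} (hz : IsPrimitiveRoot z m) (ι : E →+* ℂ)
    (F : IntermediateField ℚ k) (e : F →+* CyclotomicField m ℚ) (j : k →+* E)
    (P : (𝓞 k)[X]) (hP : P.Monic) (a : O E) (ha : (P.map (rO j)).IsRoot (a : E)) :
    (T m a).ncard ≤ P.natDegree * Module.finrank F k := by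
  let _ : Algebra F ℂ := ((ι.comp j).comp (algebraMap F k)).toAlgebra
  have hF : ∀ x : F, algebraMap F ℂ x = ι (j x) := fun x => rfl
  -- the `F`-homomorphism
  let f : ∀ h : E ≃ₐ[ℚ] E, h ∈ H E m → (k →ₐ[F] ℂ) := fun h hh =>
    { (ι.comp ((h : E →+* E).comp j)) with
      commutes' := fun x => by
        have := fix_F hm hz hh F e j x
        exact congrArg ι this }
  have hfa : ∀ (h : E ≃ₐ[ℚ] E) (hh : h ∈ H E m), (f h hh : k →+* ℂ) = ι.comp ((h : E →+* E).comp j) :=
    fun h hh => rfl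
  have hsub : (fun x : O E => ι (x : E)) '' T m a ⊆
      ((Finset.univ : Finset (k →ₐ[F] ℂ)).biUnion
        fun ψ => (P.map (rO (ψ : k →+* ℂ))).roots.toFinset : Finset ℂ) := by
    rintro _ ⟨x, ⟨h, hh, rfl⟩, rfl⟩
    rw [Finset.mem_coe, Finset.mem_biUnion]
    refine ⟨f h hh, Finset.mem_univ _, ?_⟩
    rw [Multiset.mem_toFinset, mem_roots ((hP.map _).ne_zero), hfa h hh]
    have h1 := root_map j (h : E →+* E) P ha
    have h2 := root_map _ ι P h1
    exact h2
  have hinj : Function.Injective (fun x : O E => ι (x : E)) :=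
    ι.injective.comp Subtype.val_injective
  calc (T m a).ncard = ((fun x : O E => ι (x : E)) '' T m a).ncard :=
        (Set.ncard_image_of_injective _ hinj).symm
    _ ≤ ((((Finset.univ : Finset (k →ₐ[F] ℂ)).biUnion
        fun ψ => (P.map (rO (ψ : k →+* ℂ))).roots.toFinset : Finset ℂ) : Set ℂ)).ncard :=
        Set.ncard_le_ncard hsub (Finset.finite_toSet _)
    _ = ((Finset.univ : Finset (k →ₐ[F] ℂ)).biUnion
        fun ψ => (P.map (rO (ψ : k →+* ℂ))).roots.toFinset).card := Set.ncard_coe_finset _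
    _ ≤ (Finset.univ : Finset (k →ₐ[F] ℂ)).card * P.natDegree := by
        refine Finset.card_biUnion_le_card_mul _ _ _ fun ψ _ => ?_
        calc _ ≤ (P.map (rO (ψ : k →+* ℂ))).roots.card := Multiset.toFinset_card_le _
          _ ≤ (P.map (rO (ψ : k →+* ℂ))).natDegree := Polynomial.card_roots' _
          _ ≤ P.natDegree := natDegree_map_le
    _ = Fintype.card (k →ₐ[F] ℂ) * P.natDegree := rfl
    _ = P.natDegree * Module.finrank F k := by
        rw [AlgHom.card F k ℂ, mul_comm]

/-- each embedding of `k` extends in `[E : k]` ways -/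
theorem fiber_card (ι : E →+* ℂ) (j : k →+* E) (τ : k →+* ℂ) :
    (Finset.univ.filter fun g : E ≃ₐ[ℚ] E => ι.comp ((g : E →+* E).comp j) = τ).card *
      Module.finrank ℚ k ≤ Fintype.card (E ≃ₐ[ℚ] E) := by
  by_cases hne : (Finset.univ.filter fun g : E ≃ₐ[ℚ] E => ι.comp ((g : E →+* E).comp j) = τ).Nonempty
  swap
  · rw [Finset.not_nonempty_iff_eq_empty] at hne
    rw [hne]; simp
  obtain ⟨g₀, hg₀⟩ := hne
  rw [Finset.mem_filter] at hg₀
  set K : IntermediateField ℚ E := j.toRatAlgHom.fieldRange with hK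
  have h1 : (Finset.univ.filter fun g : E ≃ₐ[ℚ] E => ι.comp ((g : E →+* E).comp j) = τ).card ≤
      Fintype.card K.fixingSubgroup := by
    rw [← Fintype.card_coe]
    refine Fintype.card_le_of_injective (fun g => ⟨g₀⁻¹ * g.1, ?_⟩) ?_
    · rw [IntermediateField.mem_fixingSubgroup_iff]
      rintro _ ⟨x, rfl⟩
      have hg := (Finset.mem_filter.mp g.2).2
      have h2 : ι (g.1 (j x)) = ι (g₀ (j x)) := by
        have h3 := congrArg (fun φ : k →+* ℂ => φ x) (hg.trans hg₀.2.symm)
        exact h3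
      have h3 : g.1 (j x) = g₀ (j x) := ι.injective h2
      have h4 : (g₀⁻¹ * g.1) (j x) = j x := by
        rw [AlgEquiv.mul_apply, h3]
        exact AlgEquiv.symm_apply_apply g₀ _
      exact h4
    · intro g g' h
      have := congrArg Subtype.val h
      exact Subtype.ext (mul_left_cancel this)
  have h2 : Fintype.card K.fixingSubgroup = Module.finrank K E := by
    rw [← Nat.card_eq_fintype_card]
    exact IsGalois.card_fixingSubgroup_eq_finrank K
  have h3 : Fintype.card (E ≃ₐ[ℚ] E) = Module.finrank ℚ E := by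
    rw [← Nat.card_eq_fintype_card]
    exact IsGalois.card_aut_eq_finrank ℚ E
  have h4 : Module.finrank ℚ K * Module.finrank K E = Module.finrank ℚ E :=
    Module.finrank_mul_finrank ℚ K E
  have h5 : Module.finrank ℚ K = Module.finrank ℚ k := by
    have e : k ≃ₐ[ℚ] K := AlgEquiv.ofInjectiveField j.toRatAlgHom
    exact e.toLinearEquiv.finrank_eq.symm
  rw [h3, ← h4, h5, mul_comm]
  exact Nat.mul_le_mul_left _ (h2 ▸ h1)

theorem S_card (ι : E →+* ℂ) (j : k →+* E) (S : Finset (k →+* ℂ)) :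
    (Finset.univ.filter fun g : E ≃ₐ[ℚ] E => ι.comp ((g : E →+* E).comp j) ∈ S).card *
      Module.finrank ℚ k ≤ S.card * Fintype.card (E ≃ₐ[ℚ] E) := by
  have h1 : (Finset.univ.filter fun g : E ≃ₐ[ℚ] E => ι.comp ((g : E →+* E).comp j) ∈ S).card =
      ∑ τ ∈ S, (Finset.univ.filter fun g : E ≃ₐ[ℚ] E =>
        ι.comp ((g : E →+* E).comp j) = τ).card := by
    rw [Finset.card_eq_sum_card_fiberwise (f := fun g : E ≃ₐ[ℚ] E => ι.comp ((g : E →+* E).comp j))
      (t := S)]
    · refine Finset.sum_congr rfl fun τ hτ => ?_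
      congr 1
      ext g
      simp only [Finset.mem_filter, Finset.mem_univ, true_and]
      constructor
      · exact fun h => h.2
      · exact fun h => ⟨h ▸ hτ, h⟩
    · intro g hg
      simpa using hg
  rw [h1, Finset.sum_mul]
  calc _ ≤ ∑ τ ∈ S, Fintype.card (E ≃ₐ[ℚ] E) := Finset.sum_le_sum fun τ _ => fiber_card ι j τ
    _ = _ := by rw [Finset.sum_const, smul_eq_mul]

/-- the height of a root -/
theorem Hp_le (ι : E →+* ℂ) (j : k →+* E) (S : Finset (k →+* ℂ)) (P : (𝓞 k)[X]) {c : ℝ} (hc : 1 ≤ c)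
    (hout : ∀ σ : k →+* ℂ, σ ∉ S → ∀ l : ℂ, (P.map (rO σ)).IsRoot l → ‖l‖ ≤ 1)
    (hin : ∀ σ ∈ S, ∀ l : ℂ, (P.map (rO σ)).IsRoot l → ‖l‖ ≤ c)
    {a : E} (ha : (P.map (rO j)).IsRoot a) :
    Hp ι a ≤ c ^ (Finset.univ.filter fun g : E ≃ₐ[ℚ] E =>
      ι.comp ((g : E →+* E).comp j) ∈ S).card := by
  unfold Hp
  calc ∏ g : E ≃ₐ[ℚ] E, max 1 ‖ι (g a)‖ ≤
      ∏ g : E ≃ₐ[ℚ] E, (if ι.comp ((g : E →+* E).comp j) ∈ S then c else 1) := by
        refine Finset.prod_le_prod (fun g _ => zero_le_one.trans (le_max_left _ _)) fun g _ => ?_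
        have h1 := root_map _ ι P (root_map j (g : E →+* E) P ha)
        split_ifs with h
        · exact max_le hc (hin _ h _ h1)
        · exact max_le le_rfl (hout _ h _ h1)
    _ = _ := by
        rw [Finset.prod_ite, Finset.prod_const, Finset.prod_const_one, mul_one]

end Pool.Agent.W685.AB
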