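import Mathlib

set_option autoImplicit false

namespace Pool.Agent.W685.AB

open Matrix
open scoped ComplexOrder

theorem amgm {n : ℕ} (x : Fin n → ℝ) (hx : ∀ i, 0 ≤ x i) (hn : 0 < n) {c : ℝ}
    (hs : ∑ i, x i ≤ n * c) : ∏ i, x i ≤ c ^ n := by
  have hn' : (0 : ℝ) < n := by exact_mod_cast hn
  have h1 := Real.geom_mean_le_arith_mean_weighted (Finset.univ : Finset (Fin n))
    (fun _ => (1 : ℝ) / n) x (fun _ _ => by positivity)
    (by rw [Finset.sum_const, Finset.card_univ, Fintype.card_fin, nsmul_eq_mul]; field_simp)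
    (fun i _ => hx i)
  have h2 : ∑ i, (1 : ℝ) / n * x i ≤ c := by
    rw [← Finset.mul_sum, one_div, inv_mul_le_iff₀ hn']
    exact hs
  have h3 : ∏ i, x i = (∏ i, x i ^ ((1 : ℝ) / n)) ^ n := by
    rw [← Finset.prod_pow]
    refine Finset.prod_congr rfl fun i _ => ?_
    rw [← Real.rpow_natCast, ← Real.rpow_mul (hx i), one_div, inv_mul_cancel₀ hn'.ne',
      Real.rpow_one]
  rw [h3]
  refine pow_le_pow_left₀ (Finset.prod_nonneg fun i _ => Real.rpow_nonneg (hx i) _) ?_ _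
  exact h1.trans h2

/-- Hadamard's inequality for matrices with entries in the unit disc -/
theorem hadamard_one {n : ℕ} (A : Matrix (Fin n) (Fin n) ℂ) (hA : ∀ i j, ‖A i j‖ ≤ 1) :
    ‖A.det‖ ^ 2 ≤ (n : ℝ) ^ n := by
  rcases Nat.eq_zero_or_pos n with hn | hn
  · subst hn
    simp
  set B := A * Aᴴ with hB
  have hpos : B.PosSemidef := Matrix.posSemidef_self_mul_conjTranspose A
  have hherm : B.IsHermitian := hpos.isHermitian
  have hdet : B.det = ((‖A.det‖ ^ 2 : ℝ) : ℂ) := by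
    rw [hB, Matrix.det_mul, Matrix.det_conjTranspose, Complex.star_def, Complex.mul_conj,
      Complex.normSq_eq_norm_sq]
  have htr : B.trace = ((∑ i, ∑ j, ‖A i j‖ ^ 2 : ℝ) : ℂ) := by
    rw [hB, Matrix.trace]
    push_cast
    refine Finset.sum_congr rfl fun i _ => ?_
    rw [Matrix.diag_apply, Matrix.mul_apply]
    refine Finset.sum_congr rfl fun j _ => ?_
    rw [Matrix.conjTranspose_apply, Complex.star_def, Complex.mul_conj, Complex.normSq_eq_norm_sq]
    push_cast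
    rfl
  have h1 := hherm.det_eq_prod_eigenvalues
  have h2 := hherm.trace_eq_sum_eigenvalues
  rw [hdet] at h1
  rw [htr] at h2
  have h1' : ‖A.det‖ ^ 2 = ∏ i, hherm.eigenvalues i := by
    apply Complex.ofReal_injective
    rw [h1]
    push_cast
    rfl
  have h2' : ∑ i, ∑ j, ‖A i j‖ ^ 2 = ∑ i, hherm.eigenvalues i := by
    apply Complex.ofReal_injective
    rw [h2]
    push_cast
    rfl
  rw [h1']
  refine amgm _ (fun i => hpos.eigenvalues_nonneg i) hn ?_
  rw [← h2']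
  calc ∑ i : Fin n, ∑ j : Fin n, ‖A i j‖ ^ 2 ≤ ∑ i : Fin n, ∑ j : Fin n, (1 : ℝ) :=
        Finset.sum_le_sum fun i _ => Finset.sum_le_sum fun j _ =>
          pow_le_one₀ (norm_nonneg _) (hA i j)
    _ = n * n := by simp

/-- the Vandermonde determinant -/
theorem vander_le {n : ℕ} (x : Fin n → ℂ) :
    ‖(vandermonde x).det‖ ^ 2 ≤ (n : ℝ) ^ n * (∏ i, max 1 ‖x i‖) ^ (2 * (n - 1)) := by
  set c : Fin n → ℝ := fun i => max 1 ‖x i‖ ^ (n - 1) with hc
  have hc0 : ∀ i, 0 < c i := fun i => pow_pos (lt_of_lt_of_le one_pos (le_max_left _ _)) _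
  set A : Matrix (Fin n) (Fin n) ℂ := Matrix.of fun i j => ((c i)⁻¹ : ℂ) * x i ^ (j : ℕ) with hA
  have h1 : (vandermonde x).det = (∏ i, (c i : ℂ)) * A.det := by
    rw [← Matrix.det_mul_column]
    congr 1
    ext i j
    simp only [Matrix.of_apply, vandermonde_apply, hA]
    have : (c i : ℂ) ≠ 0 := by exact_mod_cast (hc0 i).ne'
    field_simp
  have h2 : ∀ i j, ‖A i j‖ ≤ 1 := by
    intro i j
    rw [hA, Matrix.of_apply, norm_mul, norm_inv, Complex.norm_real, Real.norm_of_nonneg (hc0 i).le,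
      norm_pow, inv_mul_le_iff₀ (hc0 i), mul_one]
    calc ‖x i‖ ^ (j : ℕ) ≤ max 1 ‖x i‖ ^ (j : ℕ) :=
          pow_le_pow_left₀ (norm_nonneg _) (le_max_right _ _) _
      _ ≤ max 1 ‖x i‖ ^ (n - 1) := pow_le_pow_right₀ (le_max_left _ _) (by omega)
  have h3 := hadamard_one A h2
  rw [h1, norm_mul, mul_pow, norm_prod]
  have h4 : ∏ i, ‖(c i : ℂ)‖ = (∏ i, max 1 ‖x i‖) ^ (n - 1) := by
    rw [← Finset.prod_pow]
    refine Finset.prod_congr rfl fun i _ => ?_
    rw [Complex.norm_real, Real.norm_of_nonneg (hc0 i).le]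
  rw [h4, ← pow_mul, mul_comm (n - 1) 2, mul_comm]
  exact mul_le_mul_of_nonneg_right h3 (by positivity)

end Pool.Agent.W685.AB
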