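import Pool.Agent.W685.AB.D3
import Pool.Agent.W685.AB.G1

set_option autoImplicit false
set_option linter.unusedSectionVars false

namespace Pool.Agent.W685.AB

open Polynomial Matrix

variable {E : Type} [Field E] [NumberField E] [IsGalois ℚ E]

theorem vander_dvd {R : Type} [CommRing R] {d : ℕ} (u w : Fin d → R) (p : R)
    (h : ∀ j, p ∣ ∏ i, (w j - u i)) : p ^ d ∣ (vandermonde (Fin.append u w)).det := by
  rw [det_vandermonde, Finset.prod_comm' (t' := Finset.univ) (s' := fun j => Finset.Iio j)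
    (by intro x y; simp), Fin.prod_univ_add]
  refine Dvd.dvd.mul_left ?_ _
  have h1 : p ^ d = ∏ _j : Fin d, p := by rw [Finset.prod_const, Finset.card_univ, Fintype.card_fin]
  rw [h1]
  refine Finset.prod_dvd_prod_of_dvd _ _ fun j _ => ?_
  refine (h j).trans ?_
  have h2 : ∏ i, (w j - u i) = ∏ x ∈ Finset.univ.map (Fin.castAddEmb d),
      (Fin.append u w (Fin.natAdd d j) - Fin.append u w x) := by
    rw [Finset.prod_map]
    refine Finset.prod_congr rfl fun i _ => ?_
    rw [Fin.append_right]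
    have h3 : Fin.append u w (Fin.castAddEmb d i) = u i := Fin.append_left u w i
    rw [h3]
  rw [h2]
  refine Finset.prod_dvd_prod_of_subset _ _ _ ?_
  intro x hx
  rw [Finset.mem_map] at hx
  obtain ⟨i, _, rfl⟩ := hx
  rw [Finset.mem_Iio, Fin.lt_def]
  simp
  omega

/-- If the product of the differences is divisible by a prime `p > 3 D` then there is a
collision between nodes of small height. -/
theorem collision (ι : E →+* ℂ) {p D : ℕ} (hp : 3 * D < p) {B : ℝ} (hB1 : 1 ≤ B)
    (hB : B ^ (4 * p * D) ≤ (3 / 2) ^ (Fintype.card (E ≃ₐ[ℚ] E))) {d : ℕ} (hd0 : 0 < d)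
    (hd : d ≤ D) (u w : Fin d → O E) (hu : Function.Injective u) (hw : Function.Injective w)
    (hub : ∀ i, Hp ι (u i : E) ≤ B ^ p) (hwb : ∀ i, Hp ι (w i : E) ≤ B ^ p)
    (hdvd : ∀ j, (p : O E) ∣ ∏ i, (w j - u i)) : ∃ i j, w j = u i := by
  by_contra hcon
  push Not at hcon
  set v : Fin (d + d) → O E := Fin.append u w with hv
  have hvinj : Function.Injective v := by
    rw [hv, Fin.append_injective_iff]
    exact ⟨hu, hw, fun i j h => hcon i j h.symm⟩
  have hdet : (vandermonde v).det ≠ 0 := det_vandermonde_ne_zero_iff.mpr hvinj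
  obtain ⟨b, hb⟩ := vander_dvd u w (p : O E) hdvd
  rw [← hv] at hb
  set N : ℕ := Fintype.card (E ≃ₐ[ℚ] E) with hN
  have hNpos : 0 < N := Fintype.card_pos
  have hp0 : (0 : ℝ) < p := by
    have : 0 < p := by omega
    exact_mod_cast this
  apply hdet
  rw [hb]
  suffices hb0 : (b : E) = 0 by
    have : b = 0 := Subtype.ext hb0
    rw [this, mul_zero]
  refine eq_zero_of_small ι b.2 ?_
  let f : (E ≃ₐ[ℚ] E) → O E →+* ℂ := fun k => (ι.comp (k : E →+* E)).comp (algebraMap (O E) E)
  have hf : ∀ (k : E ≃ₐ[ℚ] E) (x : O E), f k x = ι (k (x : E)) := fun k x => rfl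
  have hk : ∀ k : E ≃ₐ[ℚ] E, (p : ℝ) ^ (d + d) * ‖ι (k (b : E))‖ ^ 2 ≤
      ((d + d : ℕ) : ℝ) ^ (d + d) * (∏ i, max 1 ‖ι (k (v i : E))‖) ^ (2 * (d + d - 1)) := by
    intro k
    have h1 : (vandermonde fun i => f k (v i)).det = f k (vandermonde v).det := by
      rw [det_vandermonde, det_vandermonde, map_prod]
      refine Finset.prod_congr rfl fun i _ => ?_
      rw [map_prod]
      refine Finset.prod_congr rfl fun j _ => ?_
      rw [map_sub]
    have h2 := vander_le fun i => f k (v i)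
    rw [h1, hb, map_mul, norm_mul, mul_pow, map_pow, map_natCast, norm_pow,
      Complex.norm_natCast, ← pow_mul] at h2
    have h3 : d * 2 = d + d := by omega
    rw [h3] at h2
    exact h2
  have hmain : (p : ℝ) ^ ((d + d) * N) * (∏ k : E ≃ₐ[ℚ] E, ‖ι (k (b : E))‖) ^ 2 < (p : ℝ) ^ ((d + d) * N) * 1 := by
    calc (p : ℝ) ^ ((d + d) * N) * (∏ k : E ≃ₐ[ℚ] E, ‖ι (k (b : E))‖) ^ 2
        = ∏ k : E ≃ₐ[ℚ] E, ((p : ℝ) ^ (d + d) * ‖ι (k (b : E))‖ ^ 2) := by
          rw [Finset.prod_mul_distrib, Finset.prod_const, Finset.card_univ, Finset.prod_pow,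
            ← pow_mul]
      _ ≤ ∏ k : E ≃ₐ[ℚ] E, (((d + d : ℕ) : ℝ) ^ (d + d) * (∏ i, max 1 ‖ι (k (v i : E))‖) ^ (2 * (d + d - 1))) :=
          Finset.prod_le_prod (fun _ _ => by positivity) fun k _ => hk k
      _ = ((d + d : ℕ) : ℝ) ^ ((d + d) * N) * (∏ i, Hp ι (v i : E)) ^ (2 * (d + d - 1)) := by
          rw [Finset.prod_mul_distrib, Finset.prod_const, Finset.card_univ, Finset.prod_pow,
            ← pow_mul, Finset.prod_comm]
          rfl
      _ ≤ ((d + d : ℕ) : ℝ) ^ ((d + d) * N) * (∏ _i : Fin (d + d), B ^ p) ^ (2 * (d + d - 1)) := by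
          refine mul_le_mul_of_nonneg_left ?_ (by positivity)
          refine pow_le_pow_left₀ (Finset.prod_nonneg fun i _ =>
            zero_le_one.trans (one_le_Hp ι _)) ?_ _
          refine Finset.prod_le_prod (fun i _ => zero_le_one.trans (one_le_Hp ι _)) fun i _ => ?_
          rw [hv]
          refine Fin.addCases (fun i => ?_) (fun i => ?_) i
          · rw [Fin.append_left]; exact hub i
          · rw [Fin.append_right]; exact hwb i
      _ = (((d + d : ℕ) : ℝ) ^ N * B ^ (p * (2 * (d + d - 1)))) ^ (d + d) := by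
          rw [Finset.prod_const, Finset.card_univ, Fintype.card_fin, mul_pow, ← pow_mul, ← pow_mul,
            ← pow_mul, ← pow_mul, mul_comm N (d + d)]
          congr 2
          ring
      _ ≤ ((2 * D : ℝ) ^ N * (3 / 2) ^ N) ^ (d + d) := by
          refine pow_le_pow_left₀ (by positivity) ?_ _
          refine mul_le_mul ?_ ?_ (by positivity) (by positivity)
          · refine pow_le_pow_left₀ (by positivity) ?_ _
            have : d + d ≤ 2 * D := by omega
            exact_mod_cast this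
          · refine le_trans (pow_le_pow_right₀ hB1 ?_) hB
            have h1 : 2 * (d + d - 1) ≤ 4 * D := by omega
            calc p * (2 * (d + d - 1)) ≤ p * (4 * D) := Nat.mul_le_mul_left _ h1
              _ = 4 * p * D := by ring
      _ = ((3 * D : ℝ) ^ N) ^ (d + d) := by rw [← mul_pow]; ring_nf
      _ < ((p : ℝ) ^ N) ^ (d + d) := by
          refine pow_lt_pow_left₀ ?_ (by positivity) (by omega)
          refine pow_lt_pow_left₀ ?_ (by positivity) hNpos.ne'
          exact_mod_cast hp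
      _ = (p : ℝ) ^ ((d + d) * N) * 1 := by rw [← pow_mul, mul_one, mul_comm]
  have h1 : (∏ k : E ≃ₐ[ℚ] E, ‖ι (k (b : E))‖) ^ 2 < 1 :=
    lt_of_mul_lt_mul_left hmain (by positivity)
  have h2 : 0 ≤ ∏ k : E ≃ₐ[ℚ] E, ‖ι (k (b : E))‖ := Finset.prod_nonneg fun _ _ => norm_nonneg _
  nlinarith

end Pool.Agent.W685.AB
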