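import Pool.Agent.W685.AB.G2

set_option autoImplicit false
set_option linter.unusedSectionVars false

namespace Pool.Agent.W685.AB

open Polynomial Matrix

variable {E : Type} [Field E] [NumberField E] [IsGalois ℚ E]

theorem Hp_pow (ι : E →+* ℂ) (x : E) (n : ℕ) : Hp ι (x ^ n) = Hp ι x ^ n := by
  unfold Hp
  rw [← Finset.prod_pow]
  refine Finset.prod_congr rfl fun g _ => ?_
  rw [map_pow, map_pow, norm_pow]
  rcases le_total ‖ι (g x)‖ 1 with h | h
  · rw [max_eq_left h, max_eq_left (pow_le_one₀ (norm_nonneg _) h), one_pow]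
  · rw [max_eq_right h, max_eq_right (one_le_pow₀ h)]

/-- The Frobenius congruence is an equality for some pair of conjugates. -/
theorem exists_eq_pow2 (ι : E →+* ℂ) {D p : ℕ} (hp : p.Prime) (hpD : 3 * D < p) {B : ℝ}
    (hB1 : 1 ≤ B) (hB : B ^ (4 * p * D) ≤ (3 / 2) ^ (Fintype.card (E ≃ₐ[ℚ] E))) {m : ℕ}
    (hm : 0 < m) {z : O E} (hz : IsPrimitiveRoot (z : E) m)
    (S : Finset (O E)) (hne : S.Nonempty) (hS : ∀ g ∈ H E m, ∀ t ∈ S, actO g t ∈ S)
    (hSD : S.card ≤ D) (hSc : ∀ t ∈ S, Hp ι (t : E) ≤ B)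
    (hinj : Set.InjOn (fun t : O E => t ^ p) S)
    (g : E ≃ₐ[ℚ] E) (e : ℕ) (he : e = 1 ∨ e = p)
    (h : (g z) ^ e = (z : E) ^ p) :
    ∃ a ∈ S, ∃ t ∈ S, (g (a : E)) ^ e = (t : E) ^ p := by
  let q := S.equivFin
  set u : Fin S.card → O E := fun i => (q.symm i : O E) ^ p with hu
  set w : Fin S.card → O E := fun i => (actO g (q.symm i : O E)) ^ e with hw
  have hu' : Function.Injective u := by
    intro i j hij
    have h1 := hinj (q.symm i).2 (q.symm j).2 hij
    exact q.symm.injective (Subtype.ext h1)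
  have hgi : Function.Injective (actO g : O E → O E) := by
    intro x y hxy
    have : g (x : E) = g (y : E) := congrArg Subtype.val hxy
    exact Subtype.ext (g.injective this)
  have hw' : Function.Injective w := by
    intro i j hij
    rcases he with rfl | rfl
    · simp only [hw, pow_one] at hij
      exact q.symm.injective (Subtype.ext (hgi hij))
    · simp only [hw, ← map_pow] at hij
      exact hu' (hgi hij)
  have hB0 : 0 ≤ B := zero_le_one.trans hB1
  obtain ⟨i, j, hij⟩ := collision ι hpD hB1 hB (Finset.card_pos.mpr hne) hSD u w hu' hw'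
    (fun i => by
      have h1 : ((u i : O E) : E) = ((q.symm i : O E) : E) ^ p := by simp [hu]
      rw [h1, Hp_pow]
      exact pow_le_pow_left₀ (zero_le_one.trans (one_le_Hp ι _)) (hSc _ (q.symm i).2) _)
    (fun i => by
      have h1 : ((w i : O E) : E) = (g ((q.symm i : O E) : E)) ^ e := by simp [hw, coe_actO]
      rw [h1, Hp_pow, Hp_gal]
      refine (pow_le_pow_left₀ (zero_le_one.trans (one_le_Hp ι _)) (hSc _ (q.symm i).2) _).trans ?_
      refine pow_le_pow_right₀ hB1 ?_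
      rcases he with rfl | rfl
      · exact hp.one_le
      · exact le_rfl)
    (fun j => by
      have h1 := congr_dvd hm hz S hS (q.symm j).2 g hp e he h
      have h2 : ∏ i, (w j - u i) = ∏ t ∈ S, ((actO g (q.symm j : O E)) ^ e - t ^ p) := by
        rw [← Finset.prod_coe_sort S fun t => (actO g (q.symm j : O E)) ^ e - t ^ p]
        exact Fintype.prod_equiv q.symm _ _ fun i => rfl
      rw [h2]
      exact h1)
  refine ⟨_, (q.symm j).2, _, (q.symm i).2, ?_⟩
  have h1 := congrArg Subtype.val hij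
  simpa [hu, hw, coe_actO] using h1

/-- if `p` divides `m` and `|T| < p` then taking `p`-th powers is injective on orbits -/
theorem inj_of_dvd {p m : ℕ} (hp : p.Prime) (hpm : p ∣ m) {a : O E} (ha : a ≠ 0)
    (hT : (T m a).ncard < p) : Set.InjOn (fun t : O E => t ^ p) (T m a) := by
  rintro t₁ ⟨h₁, hh₁, rfl⟩ t₂ ⟨h₂, hh₂, rfl⟩ heq
  by_contra hne
  have ha0 : (a : E) ≠ 0 := fun h => ha (Subtype.ext h)
  have h1a : h₁ (a : E) ≠ 0 := by rw [Ne, map_eq_zero]; exact ha0
  set w : E := h₂ (a : E) / h₁ (a : E) with hw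
  have heq' : h₁ (a : E) ^ p = h₂ (a : E) ^ p := by
    have := congrArg Subtype.val heq
    simpa [coe_actO] using this
  have hwp : w ^ p = 1 := by
    rw [hw, div_pow, heq', div_self]
    rw [← heq']; exact pow_ne_zero _ h1a
  have hw1 : w ≠ 1 := by
    intro h
    rw [hw, div_eq_one_iff_eq h1a] at h
    exact hne (Subtype.ext h.symm)
  have h2a : h₂ (a : E) = w * h₁ (a : E) := by rw [hw, div_mul_cancel₀ _ h1a]
  have hwm : w ^ m = 1 := by
    obtain ⟨c, rfl⟩ := hpm
    rw [pow_mul, hwp, one_pow]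
  have hmem : ∀ i : ℕ, ∃ h ∈ H E m, h (a : E) = w ^ i * h₁ (a : E) := by
    intro i
    induction i with
    | zero => exact ⟨h₁, hh₁, by simp⟩
    | succ i ih =>
      obtain ⟨h, hh, hha⟩ := ih
      refine ⟨h * h₁⁻¹ * h₂, mul_mem (mul_mem hh (inv_mem hh₁)) hh₂, ?_⟩
      rw [AlgEquiv.mul_apply, AlgEquiv.mul_apply, h2a, map_mul, map_mul,
        (inv_mem hh₁ : h₁⁻¹ ∈ H E m) w hwm, hh w hwm]
      have : h₁⁻¹ (h₁ (a : E)) = a := AlgEquiv.symm_apply_apply h₁ _
      rw [this, hha, pow_succ]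
      ring
  have hord : orderOf w = p := by
    have : Fact p.Prime := ⟨hp⟩
    exact orderOf_eq_prime hwp hw1
  have hsub : (fun i : ℕ => w ^ i * h₁ (a : E)) '' (Set.Iio p) ⊆ Subtype.val '' T m a := by
    rintro _ ⟨i, _, rfl⟩
    obtain ⟨h, hh, hha⟩ := hmem i
    exact ⟨actO h a, ⟨h, hh, rfl⟩, hha⟩
  have hinj : Set.InjOn (fun i : ℕ => w ^ i * h₁ (a : E)) (Set.Iio p) := by
    intro i hi j hj hij
    have h1 : w ^ i = w ^ j := mul_right_cancel₀ h1a hij
    rw [← hord] at hi hj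
    exact pow_injOn_Iio_orderOf hi hj h1
  have h1 : p ≤ (T m a).ncard := by
    calc p = (Set.Iio p).ncard := by
          rw [← Finset.coe_Iio, Set.ncard_coe_finset, Nat.card_Iio]
      _ = ((fun i : ℕ => w ^ i * h₁ (a : E)) '' (Set.Iio p)).ncard :=
          hinj.ncard_image.symm
      _ ≤ (Subtype.val '' T m a).ncard := Set.ncard_le_ncard hsub ((finite_T m a).image _)
      _ ≤ (T m a).ncard := Set.ncard_image_le (finite_T m a)
  omega

/-- if taking `p`-th powers is not injective on the orbit, then a multiple of `a` by a `p`-th root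
of unity has a smaller orbit -/
theorem shrink {p m : ℕ} (hp : p.Prime) {a : O E} (ha : a ≠ 0) (hT : (T m a).ncard < p)
    (hninj : ¬ Set.InjOn (fun t : O E => t ^ p) (T m a)) :
    ∃ y : E, y ^ p = 1 ∧ ∃ b : O E, (b : E) = y * a ∧ (T m b).ncard < (T m a).ncard := by
  classical
  have ha0 : (a : E) ≠ 0 := fun h => ha (Subtype.ext h)
  set Ys : Set E := {x | (∃ c ∈ H E m, c (a : E) = x) ∧ x ^ p = (a : E) ^ p} with hYs
  have hYsub : Ys ⊆ Subtype.val '' T m a := by
    rintro _ ⟨⟨c, hc, rfl⟩, _⟩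
    exact ⟨actO c a, ⟨c, hc, rfl⟩, rfl⟩
  have hYfin : Ys.Finite := ((finite_T m a).image _).subset hYsub
  set Y : Finset E := hYfin.toFinset with hY
  have hmemY : ∀ x, x ∈ Y ↔ (∃ c ∈ H E m, c (a : E) = x) ∧ x ^ p = (a : E) ^ p := by
    intro x
    rw [hY, Set.Finite.mem_toFinset]; rfl
  have haY : (a : E) ∈ Y := (hmemY _).mpr ⟨⟨1, one_mem _, rfl⟩, rfl⟩
  set r : ℕ := Y.card with hr
  have hr0 : 0 < r := Finset.card_pos.mpr ⟨_, haY⟩
  have hrp : r < p := by
    refine lt_of_le_of_lt ?_ hT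
    calc r = Ys.ncard := (Set.ncard_eq_toFinset_card _ hYfin).symm
      _ ≤ (Subtype.val '' T m a).ncard := Set.ncard_le_ncard hYsub ((finite_T m a).image _)
      _ ≤ (T m a).ncard := Set.ncard_image_le (finite_T m a)
  set P : E := ∏ x ∈ Y, x with hP
  set w : E := P / (a : E) ^ r with hw
  have hPw : P = w * (a : E) ^ r := by rw [hw, div_mul_cancel₀ _ (pow_ne_zero _ ha0)]
  have hwp : w ^ p = 1 := by
    rw [hw, div_pow, hP, ← Finset.prod_pow, Finset.prod_congr rfl fun x hx => ((hmemY x).mp hx).2,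
      Finset.prod_const, ← hr, ← pow_mul, ← pow_mul, mul_comm r p, div_self (pow_ne_zero _ ha0)]
  obtain ⟨s, hs⟩ : ∃ s, w ^ (r * s) = w := by
    have : Fact p.Prime := ⟨hp⟩
    have hr' : (r : ZMod p) ≠ 0 := by
      rw [Ne, ZMod.natCast_eq_zero_iff]
      exact fun h => absurd (Nat.le_of_dvd hr0 h) (by omega)
    refine ⟨((r : ZMod p)⁻¹).val, ?_⟩
    have h1 : r * ((r : ZMod p)⁻¹).val ≡ 1 [MOD p] := by
      rw [← ZMod.natCast_eq_natCast_iff]
      push_cast
      rw [ZMod.natCast_zmod_val, mul_inv_cancel₀ hr']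
    have h2 : r * ((r : ZMod p)⁻¹).val % p = 1 := by
      rw [h1, Nat.mod_eq_of_lt hp.one_lt]
    rw [← Nat.div_add_mod (r * ((r : ZMod p)⁻¹).val) p, h2, pow_add, pow_mul, hwp, one_pow, one_mul,
      pow_one]
  set y : E := w ^ s with hy
  have hyp : y ^ p = 1 := by rw [hy, ← pow_mul, mul_comm, pow_mul, hwp, one_pow]
  have hyint : IsIntegral ℤ y := IsIntegral.of_pow hp.pos (by rw [hyp]; exact isIntegral_one)
  have hy0 : y ≠ 0 := by
    rintro h
    rw [h, zero_pow hp.ne_zero] at hyp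
    exact zero_ne_one hyp
  set b : O E := ⟨y, hyint⟩ * a with hb
  have hbE : (b : E) = y * a := rfl
  have hb0 : (b : E) ≠ 0 := by rw [hbE]; exact mul_ne_zero hy0 ha0
  have hbr : (b : E) ^ r = P := by
    rw [hbE, mul_pow, hPw, hy, ← pow_mul, mul_comm s r, hs]
  have hbp : (b : E) ^ p = (a : E) ^ p := by rw [hbE, mul_pow, hyp, one_mul]
  -- the stabilizer of `a ^ p` fixes `b`
  have hfix : ∀ c ∈ H E m, c (a : E) ^ p = (a : E) ^ p → c (b : E) = b := by
    intro c hc hca
    have hcP : c P = P := by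
      rw [hP, map_prod]
      refine Finset.prod_bij (fun x _ => c x) ?_ ?_ ?_ ?_
      · intro x hx
        obtain ⟨⟨c', hc', rfl⟩, hx2⟩ := (hmemY x).mp hx
        refine (hmemY _).mpr ⟨⟨c * c', mul_mem hc hc', rfl⟩, ?_⟩
        rw [← map_pow, hx2, map_pow, hca]
      · intro x _ x' _ h
        exact c.injective h
      · intro x hx
        obtain ⟨⟨c', hc', rfl⟩, hx2⟩ := (hmemY x).mp hx
        refine ⟨c⁻¹ (c' (a : E)), (hmemY _).mpr ⟨⟨c⁻¹ * c', mul_mem (inv_mem hc) hc', rfl⟩, ?_⟩, ?_⟩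
        · rw [← map_pow, hx2]
          have h1 : c⁻¹ (c ((a : E) ^ p)) = (a : E) ^ p := AlgEquiv.symm_apply_apply c _
          rw [map_pow c, hca] at h1
          exact h1
        · exact AlgEquiv.apply_symm_apply c _
      · intro x _; rfl
    set ξ : E := c (b : E) / b with hξ
    have h1 : ξ ^ r = 1 := by
      rw [hξ, div_pow, ← map_pow, hbr, hcP, ← hbr, div_self (pow_ne_zero _ hb0)]
    have h2 : ξ ^ p = 1 := by
      rw [hξ, div_pow, ← map_pow, hbp, map_pow, hca, div_self (pow_ne_zero _ ha0)]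
    have h3 : ξ ^ (Nat.gcd r p) = 1 := pow_gcd_eq_one.mpr ⟨h1, h2⟩
    have h4 : Nat.gcd r p = 1 := by
      have : Nat.Coprime p r := (hp.coprime_iff_not_dvd).mpr fun h =>
        absurd (Nat.le_of_dvd hr0 h) (by omega)
      exact this.symm
    rw [h4, pow_one, hξ, div_eq_one_iff_eq hb0] at h3
    exact h3
  refine ⟨y, hyp, b, hbE, ?_⟩
  have hinjb : Set.InjOn (fun t : O E => t ^ p) (T m b) := by
    rintro t₁ ⟨h₁, hh₁, rfl⟩ t₂ ⟨h₂, hh₂, rfl⟩ heq
    have heq' : h₁ (b : E) ^ p = h₂ (b : E) ^ p := by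
      have := congrArg Subtype.val heq
      simpa [coe_actO] using this
    rw [← map_pow, ← map_pow, hbp] at heq'
    have h1 := hfix (h₁⁻¹ * h₂) (mul_mem (inv_mem hh₁) hh₂) (by
      rw [AlgEquiv.mul_apply, ← map_pow, ← map_pow, ← heq']
      exact AlgEquiv.symm_apply_apply h₁ _)
    apply Subtype.ext
    rw [coe_actO, coe_actO]
    have h2 := congrArg h₁ h1
    rw [AlgEquiv.mul_apply] at h2
    have h3 : h₁ (h₁⁻¹ (h₂ (b : E))) = h₂ (b : E) := AlgEquiv.apply_symm_apply h₁ _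
    rw [h3] at h2
    exact h2.symm
  have hsub : (fun t : O E => t ^ p) '' T m b ⊆ (fun t : O E => t ^ p) '' T m a := by
    rintro _ ⟨t, ⟨h, hh, rfl⟩, rfl⟩
    refine ⟨actO h a, ⟨h, hh, rfl⟩, ?_⟩
    apply Subtype.ext
    have h1 : h (a : E) ^ p = h (b : E) ^ p := by rw [← map_pow, ← map_pow, hbp]
    simpa [coe_actO] using h1
  have hle : ((fun t : O E => t ^ p) '' T m a).ncard ≤ (T m a).ncard :=
    Set.ncard_image_le (finite_T m a)
  have hlt : ((fun t : O E => t ^ p) '' T m a).ncard < (T m a).ncard := by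
    refine lt_of_le_of_ne hle fun h => hninj ?_
    exact (Set.ncard_image_iff (finite_T m a)).mp h
  calc (T m b).ncard = ((fun t : O E => t ^ p) '' T m b).ncard := hinjb.ncard_image.symm
    _ ≤ ((fun t : O E => t ^ p) '' T m a).ncard :=
      Set.ncard_le_ncard hsub ((finite_T m a).image _)
    _ < _ := hlt

end Pool.Agent.W685.AB
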